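import Mathlib

set_option autoImplicit false

/-!
Iterates of a polynomial, as polynomials.
-/

namespace Pool.Agent.OddDyn

open Polynomial

section General

variable {R : Type*} [CommRing R]

/-- the `n`-th compositional iterate of `F` -/
noncomputable def iter (F : R[X]) (n : ℕ) : R[X] := (F.comp)^[n] X

@[simp] theorem iter_zero (F : R[X]) : iter F 0 = X := rfl

theorem iter_succ (F : R[X]) (n : ℕ) : iter F (n + 1) = F.comp (iter F n) :=
  Function.iterate_succ_apply' _ _ _

theorem eval_iter (F : R[X]) (n : ℕ) (x : R) :
    (iter F n).eval x = (fun y => F.eval y)^[n] x := by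
  induction n with
  | zero => simp
  | succ n ih =>
    rw [iter_succ, eval_comp, ih, Function.iterate_succ_apply']

theorem derivative_iter_succ (F : R[X]) (n : ℕ) (x : R) :
    (derivative (iter F (n + 1))).eval x =
      (derivative F).eval ((fun y => F.eval y)^[n] x) * (derivative (iter F n)).eval x := by
  rw [iter_succ, derivative_comp, eval_mul, eval_comp, eval_iter]
  ring

theorem derivative_iter (F : R[X]) (n : ℕ) (x : R) :
    (derivative (iter F n)).eval x =
      ∏ j ∈ Finset.range n, (derivative F).eval ((fun y => F.eval y)^[j] x) := by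
  induction n with
  | zero => simp
  | succ n ih => rw [derivative_iter_succ, ih, Finset.prod_range_succ, mul_comm]

theorem natDegree_iter [NoZeroDivisors R] [Nontrivial R] (F : R[X]) (n : ℕ) :
    (iter F n).natDegree = F.natDegree ^ n := by
  induction n with
  | zero => simp
  | succ n ih => rw [iter_succ, natDegree_comp, ih, pow_succ, mul_comm]

/-- difference of values -/
theorem eval_sub_eval (F : R[X]) (u v : R) :
    ∃ k : R, F.eval u - F.eval v = (u - v) * ((derivative F).eval v + k * (u - v)) := by
  obtain ⟨k, hk⟩ := Polynomial.binomExpansion F v (u - v)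
  refine ⟨k, ?_⟩
  have : v + (u - v) = u := by ring
  rw [this] at hk
  rw [hk]
  ring

/-- a nonzero polynomial bounds the number of its zeros -/
theorem card_le_of_roots [IsDomain R] {P : R[X]} (hP : P ≠ 0) (T : Finset R)
    (h : ∀ x ∈ T, P.eval x = 0) : T.card ≤ P.natDegree := by
  classical
  calc T.card ≤ P.roots.toFinset.card := by
        refine Finset.card_le_card ?_
        intro x hx
        rw [Multiset.mem_toFinset, mem_roots hP]
        exact h x hx
    _ ≤ Multiset.card P.roots := Multiset.toFinset_card_le _
    _ ≤ P.natDegree := P.card_roots'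

theorem card_le_of_iterate_eq [IsDomain R] {F : R[X]} {d : ℕ} (hF : F.natDegree = d) (hd : 2 ≤ d)
    {m n : ℕ} (hmn : m < n) (T : Finset R)
    (h : ∀ x ∈ T, (fun y => F.eval y)^[n] x = (fun y => F.eval y)^[m] x) :
    T.card ≤ d ^ n := by
  have hlt : (iter F m).natDegree < (iter F n).natDegree := by
    rw [natDegree_iter, natDegree_iter, hF]
    exact Nat.pow_lt_pow_right (by omega) hmn
  have hne : iter F n - iter F m ≠ 0 := by
    intro h0
    rw [sub_eq_zero] at h0
    rw [h0] at hlt
    exact lt_irrefl _ hlt
  have h1 := card_le_of_roots hne T (by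
    intro x hx
    rw [eval_sub, eval_iter, eval_iter, h x hx, sub_self])
  refine h1.trans ?_
  refine (natDegree_sub_le _ _).trans ?_
  rw [natDegree_iter, natDegree_iter, hF]
  exact max_le le_rfl (Nat.pow_le_pow_right (by omega) hmn.le)

end General

end Pool.Agent.OddDyn
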