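import Mathlib
import Pool.Agent.OddDyn.Iter

set_option autoImplicit false

/-!
Preperiodic points of polynomials over `ℚ_p` whose constant term is large.
-/

namespace Pool.Agent.OddDyn

open Polynomial

/-! ### real inequalities -/

theorem real_large {a r R : ℝ} {d i : ℕ} (_ha : 0 ≤ a) (hr : 0 < r) (hR : 0 ≤ R) (h1 : 1 ≤ i)
    (h2 : i < d) (hc : a ^ (d - 1) ≤ r ^ (i - 1)) (hx : 1 < r * R ^ (d - 1)) :
    a * R ^ i < r * R ^ d := by
  have hRpos : 0 < R := by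
    rcases hR.lt_or_eq with h | h
    · exact h
    · exfalso
      rw [← h, zero_pow (by omega), mul_zero] at hx
      linarith
  by_contra hlt
  push Not at hlt
  have h3 : (r * R ^ d) ^ (d - 1) ≤ (a * R ^ i) ^ (d - 1) :=
    pow_le_pow_left₀ (by positivity) hlt _
  have h4 : (a * R ^ i) ^ (d - 1) ≤ (r * R ^ (d - 1)) ^ (i - 1) * R ^ (d - 1) := by
    calc (a * R ^ i) ^ (d - 1) = a ^ (d - 1) * (R ^ i) ^ (d - 1) := by rw [mul_pow]
      _ ≤ r ^ (i - 1) * (R ^ i) ^ (d - 1) := by gcongr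
      _ = (r * R ^ (d - 1)) ^ (i - 1) * R ^ (d - 1) := by
        rw [mul_pow, mul_assoc, ← pow_mul, ← pow_mul, ← pow_add]
        congr 2
        obtain ⟨j, rfl⟩ : ∃ j, i = j + 1 := ⟨i - 1, by omega⟩
        simp only [Nat.add_sub_cancel]
        ring
  have h5 : (r * R ^ d) ^ (d - 1) = (r * R ^ (d - 1)) ^ (d - 1) * R ^ (d - 1) := by
    obtain ⟨e, rfl⟩ : ∃ e, d = e + 1 := ⟨d - 1, by omega⟩
    simp only [Nat.add_sub_cancel]
    rw [pow_succ R e, ← mul_assoc, mul_pow (r * R ^ e) R e]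
  have h6 : (r * R ^ (d - 1)) ^ (i - 1) < (r * R ^ (d - 1)) ^ (d - 1) :=
    pow_lt_pow_right₀ hx (by omega)
  have h7 : (r * R ^ (d - 1)) ^ (i - 1) * R ^ (d - 1) <
      (r * R ^ (d - 1)) ^ (d - 1) * R ^ (d - 1) :=
    mul_lt_mul_of_pos_right h6 (by positivity)
  linarith

theorem real_small {a r R : ℝ} {d i : ℕ} (_ha : 0 ≤ a) (hr : 0 < r) (hR : 0 ≤ R) (h1 : 1 ≤ i)
    (h2 : i < d) (hc : a ^ (d - 1) ≤ r ^ (i - 1)) (hx : r * R ^ (d - 1) ≤ 1) :
    a * R ^ i ≤ R := by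
  have h4 : (a * R ^ i) ^ (d - 1) ≤ R ^ (d - 1) := by
    calc (a * R ^ i) ^ (d - 1) = a ^ (d - 1) * (R ^ i) ^ (d - 1) := by rw [mul_pow]
      _ ≤ r ^ (i - 1) * (R ^ i) ^ (d - 1) := by gcongr
      _ = (r * R ^ (d - 1)) ^ (i - 1) * R ^ (d - 1) := by
        rw [mul_pow, mul_assoc, ← pow_mul, ← pow_mul, ← pow_add]
        congr 2
        obtain ⟨j, rfl⟩ : ∃ j, i = j + 1 := ⟨i - 1, by omega⟩
        simp only [Nat.add_sub_cancel]
        ring
      _ ≤ 1 ^ (i - 1) * R ^ (d - 1) := by gcongr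
      _ = R ^ (d - 1) := by rw [one_pow, one_mul]
  exact le_of_pow_le_pow_left₀ (by omega) hR h4

theorem real_lt_of {r A R : ℝ} {d : ℕ} (hr : 0 < r) (_hR : 0 ≤ R)
    (h1 : r * R ^ (d - 1) ≤ 1) (h2 : 1 < r * A ^ (d - 1)) (hA : 0 ≤ A) : R < A := by
  by_contra h
  push Not at h
  have : r * A ^ (d - 1) ≤ r * R ^ (d - 1) := by gcongr
  linarith

theorem real_succ (r R : ℝ) {d : ℕ} (hd : 1 ≤ d) : r * R ^ d = (r * R ^ (d - 1)) * R := by
  obtain ⟨e, rfl⟩ : ∃ e, d = e + 1 := ⟨d - 1, by omega⟩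
  simp only [Nat.add_sub_cancel]
  ring

variable {p : ℕ} [hp : Fact p.Prime]

/-- finite sums of small terms are small -/
theorem norm_sum_lt {ι : Type*} (s : Finset ι) (f : ι → ℚ_[p]) {C : ℝ} (hC : 0 < C)
    (h : ∀ i ∈ s, ‖f i‖ < C) : ‖∑ i ∈ s, f i‖ < C := by
  classical
  induction s using Finset.induction_on with
  | empty => simpa using hC
  | insert a s ha ih =>
    rw [Finset.sum_insert ha]
    refine lt_of_le_of_lt (Padic.nonarchimedean _ _) (max_lt ?_ ?_)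
    · exact h a (Finset.mem_insert_self _ _)
    · exact ih (fun i hi => h i (Finset.mem_insert_of_mem hi))

theorem norm_sum_le {ι : Type*} (s : Finset ι) (f : ι → ℚ_[p]) {C : ℝ} (hC : 0 ≤ C)
    (h : ∀ i ∈ s, ‖f i‖ ≤ C) : ‖∑ i ∈ s, f i‖ ≤ C := by
  classical
  induction s using Finset.induction_on with
  | empty => simpa using hC
  | insert a s ha ih =>
    rw [Finset.sum_insert ha]
    refine (Padic.nonarchimedean _ _).trans (max_le ?_ ?_)
    · exact h a (Finset.mem_insert_self _ _)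
    · exact ih (fun i hi => h i (Finset.mem_insert_of_mem hi))

theorem norm_add_of_lt {a b : ℚ_[p]} (h : ‖a‖ < ‖b‖) : ‖a + b‖ = ‖b‖ := by
  rw [Padic.add_eq_max_of_ne h.ne, max_eq_right h.le]

/-- the coefficient condition -/
def Good (f : ℚ_[p][X]) : Prop :=
  ∀ i, 1 ≤ i → i < f.natDegree →
    ‖f.coeff i‖ ^ (f.natDegree - 1) ≤ ‖f.leadingCoeff‖ ^ (i - 1)

/-- the terms of intermediate degree -/
noncomputable def mid (f : ℚ_[p][X]) (x : ℚ_[p]) : ℚ_[p] :=
  ∑ i ∈ Finset.Ico 1 f.natDegree, f.coeff i * x ^ i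

theorem eval_decomp {f : ℚ_[p][X]} (hd : 2 ≤ f.natDegree) (x : ℚ_[p]) :
    f.eval x = (f.coeff 0 + mid f x) + f.leadingCoeff * x ^ f.natDegree := by
  rw [eval_eq_sum_range, Finset.sum_range_succ, Finset.range_eq_Ico,
    Finset.sum_eq_sum_Ico_succ_bot (by omega)]
  simp only [pow_zero, mul_one, mid, leadingCoeff, zero_add]

section

variable {f : ℚ_[p][X]} (hf : Good f) (hd : 2 ≤ f.natDegree)

include hf hd

theorem lead_pos : 0 < ‖f.leadingCoeff‖ := by
  rw [norm_pos_iff]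
  intro h
  rw [leadingCoeff_eq_zero] at h
  subst h
  simp at hd

theorem mid_large {x : ℚ_[p]} (hx : 1 < ‖f.leadingCoeff‖ * ‖x‖ ^ (f.natDegree - 1)) :
    ‖mid f x‖ < ‖f.leadingCoeff‖ * ‖x‖ ^ f.natDegree := by
  have hr := lead_pos hf hd
  refine norm_sum_lt _ _ ?_ ?_
  · rw [real_succ _ _ (by omega)]
    have hx0 : 0 < ‖x‖ := by
      rcases (norm_nonneg x).lt_or_eq with h | h
      · exact h
      · exfalso
        rw [← h, zero_pow (by omega), mul_zero] at hx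
        linarith
    positivity
  · intro i hi
    rw [Finset.mem_Ico] at hi
    rw [norm_mul, norm_pow]
    exact real_large (norm_nonneg _) hr (norm_nonneg _) hi.1 hi.2 (hf i hi.1 hi.2) hx

theorem mid_small {x : ℚ_[p]} (hx : ‖f.leadingCoeff‖ * ‖x‖ ^ (f.natDegree - 1) ≤ 1) :
    ‖mid f x‖ ≤ ‖x‖ := by
  have hr := lead_pos hf hd
  refine norm_sum_le _ _ (norm_nonneg _) ?_
  intro i hi
  rw [Finset.mem_Ico] at hi
  rw [norm_mul, norm_pow]
  exact real_small (norm_nonneg _) hr (norm_nonneg _) hi.1 hi.2 (hf i hi.1 hi.2) hx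

/-- the escaping region -/
theorem norm_eval_esc {x : ℚ_[p]} (h1 : 1 < ‖f.leadingCoeff‖ * ‖x‖ ^ (f.natDegree - 1))
    (h2 : ‖f.coeff 0‖ < ‖f.leadingCoeff‖ * ‖x‖ ^ f.natDegree) :
    ‖f.eval x‖ = ‖f.leadingCoeff‖ * ‖x‖ ^ f.natDegree := by
  rw [eval_decomp hd, norm_add_of_lt, norm_mul, norm_pow]
  rw [norm_mul, norm_pow]
  exact lt_of_le_of_lt (Padic.nonarchimedean _ _) (max_lt h2 (mid_large hf hd h1))

theorem esc_step {x : ℚ_[p]} (h1 : 1 < ‖f.leadingCoeff‖ * ‖x‖ ^ (f.natDegree - 1))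
    (h2 : ‖f.coeff 0‖ < ‖f.leadingCoeff‖ * ‖x‖ ^ f.natDegree) :
    ‖x‖ < ‖f.eval x‖ ∧ 1 < ‖f.leadingCoeff‖ * ‖f.eval x‖ ^ (f.natDegree - 1) ∧
      ‖f.coeff 0‖ < ‖f.leadingCoeff‖ * ‖f.eval x‖ ^ f.natDegree := by
  have hr := lead_pos hf hd
  have hx0 : 0 < ‖x‖ := by
    rcases (norm_nonneg x).lt_or_eq with h | h
    · exact h
    · exfalso
      rw [← h, zero_pow (by omega), mul_zero] at h1
      linarith
  have h3 : ‖x‖ < ‖f.eval x‖ := by
    rw [norm_eval_esc hf hd h1 h2, real_succ _ _ (by omega)]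
    nlinarith
  refine ⟨h3, lt_of_lt_of_le h1 ?_, lt_of_lt_of_le h2 ?_⟩
  · gcongr
  · gcongr

theorem esc_iter {x : ℚ_[p]} (h1 : 1 < ‖f.leadingCoeff‖ * ‖x‖ ^ (f.natDegree - 1))
    (h2 : ‖f.coeff 0‖ < ‖f.leadingCoeff‖ * ‖x‖ ^ f.natDegree) (n : ℕ) :
    1 < ‖f.leadingCoeff‖ * ‖(fun y => f.eval y)^[n] x‖ ^ (f.natDegree - 1) ∧
      ‖f.coeff 0‖ < ‖f.leadingCoeff‖ * ‖(fun y => f.eval y)^[n] x‖ ^ f.natDegree := by
  induction n with
  | zero => exact ⟨h1, h2⟩
  | succ n ih =>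
    rw [Function.iterate_succ_apply']
    exact (esc_step hf hd ih.1 ih.2).2

theorem not_preper_of_esc {x : ℚ_[p]} (h1 : 1 < ‖f.leadingCoeff‖ * ‖x‖ ^ (f.natDegree - 1))
    (h2 : ‖f.coeff 0‖ < ‖f.leadingCoeff‖ * ‖x‖ ^ f.natDegree) :
    ¬ (Set.range (fun n => (fun y => f.eval y)^[n] x)).Finite := by
  have h3 : StrictMono (fun n => ‖(fun y => f.eval y)^[n] x‖) := by
    refine strictMono_nat_of_lt_succ ?_
    intro n
    obtain ⟨h4, h5⟩ := esc_iter hf hd h1 h2 n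
    have := (esc_step hf hd h4 h5).1
    simp only [Function.iterate_succ_apply']
    exact this
  intro hfin
  have h4 : Function.Injective (fun n => (fun y => f.eval y)^[n] x) := by
    intro a b hab
    apply h3.injective
    simp only at hab ⊢
    rw [hab]
  exact Set.infinite_range_of_injective h4 hfin

end

/-- images of preperiodic points are preperiodic -/
theorem preper_succ {α : Type*} {φ : α → α} {x : α} (h : (Set.range (fun n => φ^[n] x)).Finite)
    (k : ℕ) : (Set.range (fun n => φ^[n] (φ^[k] x))).Finite := by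
  refine h.subset ?_
  rintro _ ⟨n, rfl⟩
  exact ⟨n + k, Function.iterate_add_apply _ _ _ _⟩

section

variable {f : ℚ_[p][X]} (hf : Good f) (hd : 2 ≤ f.natDegree)

include hf hd

/-- large constant term: preperiodic points lie on one sphere -/
theorem sphere (hA : 1 < ‖f.leadingCoeff‖ * ‖f.coeff 0‖ ^ (f.natDegree - 1)) {x : ℚ_[p]}
    (hx : (Set.range (fun n => (fun y => f.eval y)^[n] x)).Finite) :
    ‖f.leadingCoeff‖ * ‖x‖ ^ f.natDegree = ‖f.coeff 0‖ ∧
      1 < ‖f.leadingCoeff‖ * ‖x‖ ^ (f.natDegree - 1) := by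
  have hr := lead_pos hf hd
  have hA0 : 0 < ‖f.coeff 0‖ := by
    rcases (norm_nonneg (f.coeff 0)).lt_or_eq with h | h
    · exact h
    · exfalso
      rw [← h, zero_pow (by omega), mul_zero] at hA
      linarith
  have hkey : ∀ y : ℚ_[p], ‖f.coeff 0‖ ≤ ‖f.leadingCoeff‖ * ‖y‖ ^ f.natDegree →
      1 < ‖f.leadingCoeff‖ * ‖y‖ ^ (f.natDegree - 1) := by
    intro y hy
    by_contra h
    push Not at h
    have h1 := real_lt_of hr (norm_nonneg y) h hA (norm_nonneg _)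
    rw [real_succ _ _ (by omega)] at hy
    have h2 : ‖f.leadingCoeff‖ * ‖y‖ ^ (f.natDegree - 1) * ‖y‖ ≤ 1 * ‖y‖ := by gcongr
    linarith
  rcases lt_trichotomy (‖f.leadingCoeff‖ * ‖x‖ ^ f.natDegree) ‖f.coeff 0‖ with h | h | h
  · exfalso
    have h1 : ‖f.eval x‖ = ‖f.coeff 0‖ := by
      have hm : ‖mid f x‖ < ‖f.coeff 0‖ := by
        by_cases hl : 1 < ‖f.leadingCoeff‖ * ‖x‖ ^ (f.natDegree - 1)
        · exact (mid_large hf hd hl).trans h
        · push Not at hl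
          exact lt_of_le_of_lt (mid_small hf hd hl)
            (real_lt_of hr (norm_nonneg _) hl hA (norm_nonneg _))
      have h2 : f.eval x = (mid f x + f.leadingCoeff * x ^ f.natDegree) + f.coeff 0 := by
        rw [eval_decomp hd]; ring
      rw [h2, norm_add_of_lt]
      refine lt_of_le_of_lt (Padic.nonarchimedean _ _) (max_lt hm ?_)
      rw [norm_mul, norm_pow]
      exact h
    have h2 := preper_succ hx 1
    refine not_preper_of_esc hf hd (x := f.eval x) ?_ ?_ h2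
    · rw [h1]; exact hA
    · rw [h1, real_succ _ _ (by omega)]
      nlinarith
  · exact ⟨h, hkey x h.symm.le⟩
  · exfalso
    exact not_preper_of_esc hf hd (hkey x h.le) h hx

end

/-- injectivity of `d`-th powers, quantitatively -/
theorem norm_pow_sub_pow {d : ℕ} (hcop : Nat.Coprime d (p * (p - 1))) {x y : ℚ_[p]} (hy : y ≠ 0)
    (hxy : ‖x‖ = ‖y‖) (h : ‖x ^ d - y ^ d‖ < ‖y‖ ^ d) :
    ‖x ^ d - y ^ d‖ = ‖y‖ ^ (d - 1) * ‖x - y‖ := by
  have hd : 1 ≤ d := by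
    rcases Nat.eq_zero_or_pos d with h0 | h0
    · exfalso
      subst h0
      simp at hcop
      have := hp.out.two_le
      omega
    · exact h0
  have hy0 : 0 < ‖y‖ := norm_pos_iff.mpr hy
  have hu1 : ‖x / y‖ = 1 := by rw [norm_div, hxy, div_self hy0.ne']
  set u : ℤ_[p] := ⟨x / y, hu1.le⟩ with hu
  have hux : (u : ℚ_[p]) = x / y := rfl
  have hxu : x = y * u := by rw [hux]; field_simp
  have h1 : ‖(u : ℚ_[p]) ^ d - 1‖ < 1 := by
    have h2 : x ^ d - y ^ d = y ^ d * ((u : ℚ_[p]) ^ d - 1) := by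
      rw [hxu]; ring
    rw [h2, norm_mul, norm_pow] at h
    have h3 : ‖y‖ ^ d * ‖(u : ℚ_[p]) ^ d - 1‖ < ‖y‖ ^ d * 1 := by rwa [mul_one]
    exact lt_of_mul_lt_mul_left h3 (by positivity)
  have h2 : (PadicInt.toZMod (u ^ d - 1) : ZMod p) = 0 := by
    have h3 : ‖(u ^ d - 1 : ℤ_[p])‖ < 1 := by
      rw [PadicInt.norm_def]
      push_cast
      exact h1
    have h4 : (u ^ d - 1 : ℤ_[p]) ∈ RingHom.ker (PadicInt.toZMod (p := p)) := by
      rw [PadicInt.ker_toZMod, IsLocalRing.mem_maximalIdeal, PadicInt.mem_nonunits]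
      exact h3
    exact h4
  set v : ZMod p := PadicInt.toZMod u with hv
  have hv1 : v ^ d = 1 := by
    rw [map_sub, map_pow, map_one, sub_eq_zero] at h2
    exact h2
  have hv0 : v ≠ 0 := by
    intro h0
    rw [h0, zero_pow (by omega)] at hv1
    exact zero_ne_one hv1
  have hv2 : v ^ (p - 1) = 1 := ZMod.pow_card_sub_one_eq_one hv0
  have hv3 : v = 1 := by
    have h4 := pow_gcd_eq_one.mpr ⟨hv1, hv2⟩
    have h5 : Nat.gcd d (p - 1) = 1 := Nat.Coprime.coprime_mul_left_right hcop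
    rw [h5, pow_one] at h4
    exact h4
  have h6 : PadicInt.toZMod (∑ j ∈ Finset.range d, u ^ j) = (d : ZMod p) := by
    rw [map_sum]
    simp only [map_pow, ← hv, hv3, one_pow, Finset.sum_const, Finset.card_range, nsmul_eq_mul,
      mul_one]
  have h7 : (d : ZMod p) ≠ 0 := by
    rw [Ne, ZMod.natCast_eq_zero_iff]
    intro h0
    have h5 : Nat.Coprime d p := Nat.Coprime.coprime_mul_right_right hcop
    have := Nat.Coprime.eq_one_of_dvd h5.symm h0
    exact hp.out.one_lt.ne' this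
  have h8 : ‖(∑ j ∈ Finset.range d, u ^ j : ℤ_[p])‖ = 1 := by
    by_contra h9
    have h10 : ‖(∑ j ∈ Finset.range d, u ^ j : ℤ_[p])‖ < 1 :=
      lt_of_le_of_ne (PadicInt.norm_le_one _) h9
    apply h7
    rw [← h6]
    have h4 : (∑ j ∈ Finset.range d, u ^ j : ℤ_[p]) ∈ RingHom.ker (PadicInt.toZMod (p := p)) := by
      rw [PadicInt.ker_toZMod, IsLocalRing.mem_maximalIdeal, PadicInt.mem_nonunits]
      exact h10
    exact h4
  have h9 : (∑ j ∈ Finset.range d, (u : ℚ_[p]) ^ j) * ((u : ℚ_[p]) - 1) = (u : ℚ_[p]) ^ d - 1 :=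
    geom_sum_mul _ _
  have h10 : ‖(∑ j ∈ Finset.range d, (u : ℚ_[p]) ^ j)‖ = 1 := by
    rw [PadicInt.norm_def, PadicInt.coe_sum] at h8
    simpa using h8
  have h11 : x ^ d - y ^ d = y ^ (d - 1) * (∑ j ∈ Finset.range d, (u : ℚ_[p]) ^ j) * (x - y) := by
    obtain ⟨e, rfl⟩ : ∃ e, d = e + 1 := ⟨d - 1, by omega⟩
    simp only [Nat.add_sub_cancel]
    calc x ^ (e + 1) - y ^ (e + 1) = y ^ (e + 1) * ((u : ℚ_[p]) ^ (e + 1) - 1) := by
          rw [hxu]; ring
      _ = _ := by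
        rw [← h9, hxu]
        ring
  rw [h11, norm_mul, norm_mul, h10, norm_pow, mul_one]

theorem norm_pow_sub_le {x y : ℚ_[p]} (hxy : ‖x‖ = ‖y‖) {i : ℕ} (hi : 1 ≤ i) :
    ‖x ^ i - y ^ i‖ ≤ ‖y‖ ^ (i - 1) * ‖x - y‖ := by
  rw [← (Commute.all x y).geom_sum₂_mul i, norm_mul]
  refine mul_le_mul_of_nonneg_right ?_ (norm_nonneg _)
  refine norm_sum_le _ _ (by positivity) ?_
  intro j hj
  rw [Finset.mem_range] at hj
  rw [norm_mul, norm_pow, norm_pow, hxy, ← pow_add]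
  have : j + (i - 1 - j) = i - 1 := by omega
  rw [this]

section

variable {f : ℚ_[p][X]} (hf : Good f) (hd : 2 ≤ f.natDegree)
  (hcop : Nat.Coprime f.natDegree (p * (p - 1)))

include hf hd hcop

/-- expansion of distances -/
theorem expand (hA : 1 < ‖f.leadingCoeff‖ * ‖f.coeff 0‖ ^ (f.natDegree - 1)) {x y : ℚ_[p]}
    (hx : (Set.range (fun n => (fun y => f.eval y)^[n] x)).Finite)
    (hy : (Set.range (fun n => (fun y => f.eval y)^[n] y)).Finite) (hxy : x ≠ y) :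
    ‖x - y‖ < ‖f.eval x - f.eval y‖ := by
  have hr := lead_pos hf hd
  obtain ⟨hx1, hx2⟩ := sphere hf hd hA hx
  obtain ⟨hy1, hy2⟩ := sphere hf hd hA hy
  have hx' := preper_succ hx 1
  have hy' := preper_succ hy 1
  obtain ⟨hx3, -⟩ := sphere hf hd hA hx'
  obtain ⟨hy3, -⟩ := sphere hf hd hA hy'
  simp only [Function.iterate_one] at hx3 hy3
  have hinj : ∀ a b : ℚ_[p], ‖f.leadingCoeff‖ * ‖a‖ ^ f.natDegree = ‖f.coeff 0‖ →
      ‖f.leadingCoeff‖ * ‖b‖ ^ f.natDegree = ‖f.coeff 0‖ → ‖a‖ = ‖b‖ := by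
    intro a b ha hb
    have h1 : ‖a‖ ^ f.natDegree = ‖b‖ ^ f.natDegree := by
      have := ha.trans hb.symm
      exact mul_left_cancel₀ hr.ne' this
    exact (pow_left_inj₀ (norm_nonneg _) (norm_nonneg _) (by omega)).mp h1
  have hR : ‖x‖ = ‖y‖ := hinj x y hx1 hy1
  have hRx : ‖f.eval x‖ = ‖y‖ := hinj _ y hx3 hy1
  have hRy : ‖f.eval y‖ = ‖y‖ := hinj _ y hy3 hy1
  have hy0 : 0 < ‖y‖ := by
    rcases (norm_nonneg y).lt_or_eq with h | h
    · exact h
    · exfalso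
      rw [← h, zero_pow (by omega), mul_zero] at hy2
      linarith
  have hlt : ‖y‖ < ‖f.coeff 0‖ := by
    rw [← hy1, real_succ _ _ (by omega)]
    nlinarith
  have hlead : ∀ z : ℚ_[p], ‖z‖ = ‖y‖ → ‖f.eval z‖ = ‖y‖ →
      ‖f.leadingCoeff * z ^ f.natDegree + f.coeff 0‖ < ‖f.coeff 0‖ := by
    intro z hz hfz
    have h1 : f.leadingCoeff * z ^ f.natDegree + f.coeff 0 = f.eval z + (- mid f z) := by
      rw [eval_decomp hd]; ring
    rw [h1]
    refine lt_of_le_of_lt (Padic.nonarchimedean _ _) (max_lt (by rw [hfz]; exact hlt) ?_)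
    rw [norm_neg, ← hy1, ← hz]
    apply mid_large hf hd
    rw [hz]
    exact hy2
  have h1 : ‖x ^ f.natDegree - y ^ f.natDegree‖ < ‖y‖ ^ f.natDegree := by
    have h2 : ‖f.leadingCoeff * (x ^ f.natDegree - y ^ f.natDegree)‖ < ‖f.coeff 0‖ := by
      have h3 : f.leadingCoeff * (x ^ f.natDegree - y ^ f.natDegree) =
          (f.leadingCoeff * x ^ f.natDegree + f.coeff 0) +
          (-(f.leadingCoeff * y ^ f.natDegree + f.coeff 0)) := by ring
      rw [h3]
      refine lt_of_le_of_lt (Padic.nonarchimedean _ _) (max_lt (hlead x hR hRx) ?_)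
      rw [norm_neg]
      exact hlead y rfl hRy
    rw [norm_mul, ← hy1] at h2
    exact lt_of_mul_lt_mul_left h2 hr.le
  have h2 := norm_pow_sub_pow hcop (norm_pos_iff.mp hy0) hR h1
  have hxy0 : 0 < ‖x - y‖ := norm_pos_iff.mpr (sub_ne_zero.mpr hxy)
  have htop : ‖f.leadingCoeff * (x ^ f.natDegree - y ^ f.natDegree)‖ =
      ‖f.leadingCoeff‖ * ‖y‖ ^ (f.natDegree - 1) * ‖x - y‖ := by
    rw [norm_mul, h2, mul_assoc]
  have hmid : ‖mid f x - mid f y‖ < ‖f.leadingCoeff‖ * ‖y‖ ^ (f.natDegree - 1) * ‖x - y‖ := by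
    rw [mid, mid, ← Finset.sum_sub_distrib]
    refine norm_sum_lt _ _ (by positivity) ?_
    intro i hi
    rw [Finset.mem_Ico] at hi
    have h3 := real_large (norm_nonneg _) hr (norm_nonneg _) hi.1 hi.2 (hf i hi.1 hi.2) hy2
    rw [← mul_sub, norm_mul]
    calc ‖f.coeff i‖ * ‖x ^ i - y ^ i‖ ≤ ‖f.coeff i‖ * (‖y‖ ^ (i - 1) * ‖x - y‖) := by
          gcongr
          exact norm_pow_sub_le hR hi.1
      _ < _ := by
        have h4 : ‖f.coeff i‖ * ‖y‖ ^ (i - 1) < ‖f.leadingCoeff‖ * ‖y‖ ^ (f.natDegree - 1) := by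
          rw [real_succ ‖f.coeff i‖ ‖y‖ hi.1,
            real_succ ‖f.leadingCoeff‖ ‖y‖ (d := f.natDegree) (by omega)] at h3
          exact lt_of_mul_lt_mul_right h3 hy0.le
        rw [← mul_assoc]
        exact mul_lt_mul_of_pos_right h4 hxy0
  have h3 : f.eval x - f.eval y = (mid f x - mid f y) +
      f.leadingCoeff * (x ^ f.natDegree - y ^ f.natDegree) := by
    rw [eval_decomp hd, eval_decomp hd]; ring
  rw [h3, norm_add_of_lt (by rw [htop]; exact hmid), htop]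
  nlinarith

/-- at most one preperiodic point -/
theorem unique_preper (hA : 1 < ‖f.leadingCoeff‖ * ‖f.coeff 0‖ ^ (f.natDegree - 1)) {x y : ℚ_[p]}
    (hx : (Set.range (fun n => (fun y => f.eval y)^[n] x)).Finite)
    (hy : (Set.range (fun n => (fun y => f.eval y)^[n] y)).Finite) : x = y := by
  by_contra hxy
  set φ : ℚ_[p] → ℚ_[p] := fun y => f.eval y with hφ
  have hne : ∀ n, φ^[n] x ≠ φ^[n] y := by
    intro n
    induction n with
    | zero => exact hxy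
    | succ n ih =>
      have h1 := expand hf hd hcop hA (preper_succ hx n) (preper_succ hy n) ih
      rw [Function.iterate_succ_apply', Function.iterate_succ_apply']
      intro h2
      have h3 : f.eval (φ^[n] x) - f.eval (φ^[n] y) = 0 := sub_eq_zero.mpr h2
      rw [h3, norm_zero] at h1
      exact absurd h1 (not_lt.mpr (norm_nonneg _))
  have hmono : StrictMono (fun n => ‖φ^[n] x - φ^[n] y‖) := by
    refine strictMono_nat_of_lt_succ ?_
    intro n
    have h1 := expand hf hd hcop hA (preper_succ hx n) (preper_succ hy n) (hne n)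
    simp only [Function.iterate_succ_apply']
    exact h1
  have hfin : (Set.range (fun n => (φ^[n] x, φ^[n] y))).Finite := by
    refine (Set.Finite.prod hx hy).subset ?_
    rintro _ ⟨n, rfl⟩
    exact ⟨⟨n, rfl⟩, ⟨n, rfl⟩⟩
  have hinj : Function.Injective (fun n => (φ^[n] x, φ^[n] y)) := by
    intro a b hab
    apply hmono.injective
    simp only [Prod.mk.injEq] at hab ⊢
    rw [hab.1, hab.2]
  exact Set.infinite_range_of_injective hinj hfin

end

end Pool.Agent.OddDyn
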