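import Mathlib
import Pool.Agent.OddDyn.Iter

set_option autoImplicit false

/-!
Cycles of polynomials over the `p`-adic integers (Pezda, Morton–Silverman, Zieve).
-/

namespace Pool.Agent.OddDyn

open Polynomial

variable {p : ℕ} [hp : Fact p.Prime]

/-- residues -/
theorem dvd_iff_toZMod {a : ℤ_[p]} : (p : ℤ_[p]) ∣ a ↔ PadicInt.toZMod a = 0 := by
  rw [← RingHom.mem_ker, PadicInt.ker_toZMod, PadicInt.maximalIdeal_eq_span_p,
    Ideal.mem_span_singleton]

theorem prime_p : Prime (p : ℤ_[p]) := PadicInt.prime_p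

theorem fermat {a : ℤ_[p]} (ha : ¬ (p : ℤ_[p]) ∣ a) : (p : ℤ_[p]) ∣ a ^ (p - 1) - 1 := by
  rw [dvd_iff_toZMod, map_sub, map_pow, map_one, sub_eq_zero]
  apply ZMod.pow_card_sub_one_eq_one
  intro h
  exact ha (dvd_iff_toZMod.mpr h)

theorem iterate_sub (F : ℤ_[p][X]) {x : ℤ_[p]} {c : ℤ_[p]}
    (h1 : c ∣ F.eval x - x) (n : ℕ) : c ∣ (fun y => F.eval y)^[n] x - x := by
  induction n with
  | zero => simp
  | succ n ih =>
    rw [Function.iterate_succ_apply']
    have h2 : F.eval ((fun y => F.eval y)^[n] x) - x =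
        (F.eval ((fun y => F.eval y)^[n] x) - F.eval x) + (F.eval x - x) := by ring
    show c ∣ F.eval ((fun y => F.eval y)^[n] x) - x
    rw [h2]
    exact dvd_add (ih.trans (sub_dvd_eval_sub _ _ _)) h1

/-- attracting case -/
theorem fixed_of_contract (F : ℤ_[p][X]) {x : ℤ_[p]} (h1 : (p : ℤ_[p]) ∣ F.eval x - x)
    (h2 : (p : ℤ_[p]) ∣ (derivative F).eval x) {n : ℕ} (hn : 0 < n)
    (hx : (fun y => F.eval y)^[n] x = x) : F.eval x = x := by
  set φ : ℤ_[p] → ℤ_[p] := fun y => F.eval y with hφ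
  have key : ∀ k : ℕ, ∃ c : ℤ_[p], φ^[k + 1] x - φ^[k] x = (p : ℤ_[p]) ^ k * c * (φ x - x) := by
    intro k
    induction k with
    | zero => exact ⟨1, by simp⟩
    | succ k ih =>
      obtain ⟨c, hc⟩ := ih
      obtain ⟨e, he⟩ := eval_sub_eval F (φ^[k + 1] x) (φ^[k] x)
      have h3 : (p : ℤ_[p]) ∣ (derivative F).eval (φ^[k] x) := by
        have h4 : (p : ℤ_[p]) ∣ φ^[k] x - x := iterate_sub F h1 k
        have h5 := h4.trans (sub_dvd_eval_sub (φ^[k] x) x (derivative F))
        have := dvd_add h5 h2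
        simpa using this
      have h4 : (p : ℤ_[p]) ∣ φ^[k + 1] x - φ^[k] x := by
        have h5 := dvd_sub (iterate_sub F h1 (k + 1)) (iterate_sub F h1 k)
        have h6 : φ^[k + 1] x - φ^[k] x = (φ^[k + 1] x - x) - (φ^[k] x - x) := by ring
        rw [h6]
        exact h5
      obtain ⟨q, hq⟩ : (p : ℤ_[p]) ∣ (derivative F).eval (φ^[k] x) +
          e * (φ^[k + 1] x - φ^[k] x) := dvd_add h3 (Dvd.dvd.mul_left h4 _)
      refine ⟨c * q, ?_⟩
      have h5 : φ^[k + 1 + 1] x = F.eval (φ^[k + 1] x) := Function.iterate_succ_apply' _ _ _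
      have h6 : φ^[k + 1] x = F.eval (φ^[k] x) := Function.iterate_succ_apply' _ _ _
      calc φ^[k + 1 + 1] x - φ^[k + 1] x = F.eval (φ^[k + 1] x) - F.eval (φ^[k] x) := by
            rw [h5]; conv_lhs => rw [h6]
            rw [← h6]
        _ = _ := by
          rw [he, hq, hc]
          ring
  obtain ⟨c, hc⟩ := key n
  have h3 : φ^[n + 1] x = φ x := by
    rw [Function.iterate_succ_apply', hx]
  rw [h3, hx] at hc
  have h4 : (φ x - x) * (1 - (p : ℤ_[p]) ^ n * c) = 0 := by
    linear_combination hc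
  rcases mul_eq_zero.mp h4 with h5 | h5
  · exact sub_eq_zero.mp h5
  · exfalso
    have h6 : (p : ℤ_[p]) ∣ 1 := by
      have h7 : (1 : ℤ_[p]) = (p : ℤ_[p]) ^ n * c := sub_eq_zero.mp h5
      rw [h7]
      exact Dvd.dvd.mul_right (dvd_pow_self _ (by omega)) _
    exact (prime_p (p := p)).not_isUnit (isUnit_of_dvd_one h6)

/-- displacement formula -/
theorem displacement (G : ℤ_[p][X]) {x : ℤ_[p]} {q : ℤ_[p]} (h1 : q ∣ G.eval x - x)
    (h2 : q ∣ (derivative G).eval x - 1) (n : ℕ) :
    ∃ c : ℤ_[p], (fun y => G.eval y)^[n] x - x = (G.eval x - x) * (n + q * c) := by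
  set φ : ℤ_[p] → ℤ_[p] := fun y => G.eval y with hφ
  induction n with
  | zero => exact ⟨0, by simp⟩
  | succ n ih =>
    obtain ⟨c, hc⟩ := ih
    obtain ⟨e, he⟩ := eval_sub_eval G (φ^[n] x) x
    obtain ⟨s, hs⟩ := h1
    obtain ⟨t, ht⟩ := h2
    have h3 : φ^[n + 1] x = G.eval (φ^[n] x) := Function.iterate_succ_apply' _ _ _
    refine ⟨c + (t + e * s * (n + q * c)) * (n + q * c), ?_⟩
    have h4 : φ^[n + 1] x - x = (G.eval (φ^[n] x) - G.eval x) + (G.eval x - x) := by
      rw [h3]; ring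
    have h5 : (derivative G).eval x = 1 + q * t := by rw [← ht]; ring
    rw [h4, he, hc, h5]
    push_cast
    rw [hs]
    ring

theorem one_iter (G : ℤ_[p][X]) {x : ℤ_[p]} {q : ℤ_[p]} (h1 : q ∣ G.eval x - x)
    (h2 : q ∣ (derivative G).eval x - 1) (n : ℕ) :
    q ∣ (iter G n).eval x - x ∧ q ∣ (derivative (iter G n)).eval x - 1 := by
  induction n with
  | zero => simp
  | succ n ih =>
    refine ⟨?_, ?_⟩
    · rw [eval_iter]
      exact iterate_sub G h1 (n + 1)
    · rw [derivative_iter_succ, ← eval_iter]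
      have h3 : q ∣ (derivative G).eval ((iter G n).eval x) - (derivative G).eval x :=
        ih.1.trans (sub_dvd_eval_sub _ _ _)
      have h4 : (derivative G).eval ((iter G n).eval x) * (derivative (iter G n)).eval x - 1 =
          ((derivative G).eval ((iter G n).eval x) - (derivative G).eval x) *
            (derivative (iter G n)).eval x +
          ((derivative G).eval x - 1) * (derivative (iter G n)).eval x +
          ((derivative (iter G n)).eval x - 1) := by ring
      rw [h4]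
      exact dvd_add (dvd_add (Dvd.dvd.mul_right h3 _) (Dvd.dvd.mul_right h2 _)) ih.2

/-- no cycles of prime length for maps tangent to the identity modulo `p ^ 2` -/
theorem fixed_of_one (G : ℤ_[p][X]) {x : ℤ_[p]} (h1 : (p : ℤ_[p]) ^ 2 ∣ G.eval x - x)
    (h2 : (p : ℤ_[p]) ^ 2 ∣ (derivative G).eval x - 1) {l : ℕ} (hl : l.Prime)
    (hx : (fun y => G.eval y)^[l] x = x) : G.eval x = x := by
  obtain ⟨c, hc⟩ := displacement G h1 h2 l
  rw [hx, sub_self] at hc
  rcases mul_eq_zero.mp hc.symm with h3 | h3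
  · exact sub_eq_zero.mp h3
  · exfalso
    have h4 : (p : ℤ_[p]) ^ 2 ∣ ((l : ℤ) : ℤ_[p]) := by
      refine ⟨-c, ?_⟩
      push_cast
      linear_combination h3
    have h5 : ((p : ℤ) ^ 2) ∣ (l : ℤ) := by
      rwa [PadicInt.pow_p_dvd_int_iff] at h4
    have h6 : p ^ 2 ∣ l := by exact_mod_cast h5
    have h7 : p ∣ l := (dvd_pow_self p two_ne_zero).trans h6
    have h8 : p = l := (Nat.prime_dvd_prime_iff_eq hp.out hl).mp h7
    rw [← h8] at h6
    have h9 : p ^ 2 ≤ p := Nat.le_of_dvd hp.out.pos h6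
    have := hp.out.two_le
    nlinarith

theorem fixed_of_one' {n : ℕ} : ∀ (_ : 0 < n) (G : ℤ_[p][X]) {x : ℤ_[p]}
    (_ : (p : ℤ_[p]) ^ 2 ∣ G.eval x - x)
    (_ : (p : ℤ_[p]) ^ 2 ∣ (derivative G).eval x - 1)
    (_ : (fun y => G.eval y)^[n] x = x), G.eval x = x := by
  induction n using Nat.strong_induction_on with
  | _ n ih =>
    intro hn G x h1 h2 hx
    by_cases h : n = 1
    · subst h
      simpa using hx
    · obtain ⟨l, hl, hln⟩ := Nat.exists_prime_and_dvd h
      obtain ⟨m, rfl⟩ := hln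
      have hm : 0 < m := Nat.pos_of_mul_pos_left hn
      obtain ⟨h3, h4⟩ := one_iter G h1 h2 m
      have h5 : (fun y => (iter G m).eval y) = (fun y => G.eval y)^[m] := by
        funext y
        exact eval_iter G m y
      have h6 := fixed_of_one (iter G m) h3 h4 hl (by
        rw [h5, ← Function.iterate_mul, mul_comm]
        exact hx)
      rw [eval_iter] at h6
      refine ih m ?_ hm G h1 h2 h6
      have := hl.two_le
      nlinarith

theorem prod_one_add (t c : ℕ → ℤ_[p]) (q : ℤ_[p]) (n : ℕ) :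
    ∃ e : ℤ_[p], ∏ j ∈ Finset.range n, (1 + q * t j + q ^ 2 * c j) =
      1 + q * (∑ j ∈ Finset.range n, t j) + q ^ 2 * e := by
  induction n with
  | zero => exact ⟨0, by simp⟩
  | succ n ih =>
    obtain ⟨e, he⟩ := ih
    rw [Finset.prod_range_succ, he, Finset.sum_range_succ]
    refine ⟨c n + (∑ j ∈ Finset.range n, t j) * t n + q * (∑ j ∈ Finset.range n, t j) * c n +
      e * (1 + q * t n + q ^ 2 * c n), ?_⟩
    ring

/-- second step: the `p`-th iterate is tangent to the identity modulo `p ^ 2` -/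
theorem one_sq (H : ℤ_[p][X]) {x : ℤ_[p]} (h1 : (p : ℤ_[p]) ∣ H.eval x - x)
    (h2 : (p : ℤ_[p]) ∣ (derivative H).eval x - 1) :
    (p : ℤ_[p]) ^ 2 ∣ (iter H p).eval x - x ∧
      (p : ℤ_[p]) ^ 2 ∣ (derivative (iter H p)).eval x - 1 := by
  obtain ⟨s, hs⟩ := h1
  obtain ⟨a, ha⟩ := h2
  refine ⟨?_, ?_⟩
  · obtain ⟨c, hc⟩ := displacement H ⟨s, hs⟩ ⟨a, ha⟩ p
    rw [eval_iter, hc, hs]
    exact ⟨s * (1 + c), by ring⟩
  · rw [derivative_iter]
    have hh : ∃ h : ℤ_[p], (derivative (derivative H)).eval x = 2 * h := by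
      refine ⟨(hasseDeriv 2 H).eval x, ?_⟩
      have h3 := congrFun (factorial_smul_hasseDeriv (R := ℤ_[p]) 2) H
      simp only [LinearMap.smul_apply, Function.iterate_succ, Function.iterate_zero,
        Function.comp_apply, id] at h3
      rw [← h3]
      simp [Nat.factorial]
    obtain ⟨h, hh⟩ := hh
    choose c hc using displacement H ⟨s, hs⟩ ⟨a, ha⟩
    choose k hk using fun j : ℕ => eval_sub_eval (derivative H) ((fun y => H.eval y)^[j] x) x
    have h4 : ∀ j : ℕ, (derivative H).eval ((fun y => H.eval y)^[j] x) =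
        1 + (p : ℤ_[p]) * (a + 2 * h * s * j) + (p : ℤ_[p]) ^ 2 *
          (2 * h * s * c j + k j * s ^ 2 * (j + p * c j) ^ 2) := by
      intro j
      have h5 := hk j
      have h6 := hc j
      rw [hs] at h6
      rw [h6, hh] at h5
      have h7 : (derivative H).eval ((fun y => H.eval y)^[j] x) =
        (derivative H).eval x + (p * s * (j + p * c j) *
          (2 * h + k j * (p * s * (j + p * c j)))) := by
        rw [← h5]; ring
      rw [h7]
      have h8 : (derivative H).eval x = 1 + p * a := by rw [← ha]; ring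
      rw [h8]
      ring
    rw [Finset.prod_congr rfl (fun j _ => h4 j)]
    obtain ⟨e, he⟩ := prod_one_add (fun j : ℕ => a + 2 * h * s * (j : ℤ_[p]))
      (fun j : ℕ => 2 * h * s * c j + k j * s ^ 2 * ((j : ℤ_[p]) + (p : ℤ_[p]) * c j) ^ 2)
      (p : ℤ_[p]) p
    rw [he]
    have h9 : ∑ j ∈ Finset.range p, (a + 2 * h * s * (j : ℤ_[p])) =
        p * (a + h * s * ((p - 1 : ℕ) : ℤ_[p])) := by
      rw [Finset.sum_add_distrib, Finset.sum_const, Finset.card_range, nsmul_eq_mul,
        ← Finset.mul_sum]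
      have h10 : (∑ j ∈ Finset.range p, (j : ℤ_[p])) * 2 = p * ((p - 1 : ℕ) : ℤ_[p]) := by
        rw [← Nat.cast_mul, ← Finset.sum_range_id_mul_two p]
        push_cast
        rfl
      calc (p : ℤ_[p]) * a + 2 * h * s * ∑ j ∈ Finset.range p, (j : ℤ_[p])
          = p * a + h * s * ((∑ j ∈ Finset.range p, (j : ℤ_[p])) * 2) := by ring
        _ = _ := by rw [h10]; ring
    rw [h9]
    exact ⟨a + h * s * ((p - 1 : ℕ) : ℤ_[p]) + e, by ring⟩

/-- first step -/
theorem derivative_iter_congr (F : ℤ_[p][X]) {x : ℤ_[p]} (h1 : (p : ℤ_[p]) ∣ F.eval x - x)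
    (n : ℕ) : (p : ℤ_[p]) ∣ (derivative (iter F n)).eval x - ((derivative F).eval x) ^ n := by
  induction n with
  | zero => simp
  | succ n ih =>
    rw [derivative_iter_succ]
    have h3 : (p : ℤ_[p]) ∣ (derivative F).eval ((fun y => F.eval y)^[n] x) -
        (derivative F).eval x :=
      (iterate_sub F h1 n).trans (sub_dvd_eval_sub _ _ _)
    have h4 : (derivative F).eval ((fun y => F.eval y)^[n] x) * (derivative (iter F n)).eval x -
        ((derivative F).eval x) ^ (n + 1) =
        ((derivative F).eval ((fun y => F.eval y)^[n] x) - (derivative F).eval x) *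
          (derivative (iter F n)).eval x +
        (derivative F).eval x * ((derivative (iter F n)).eval x -
          ((derivative F).eval x) ^ n) := by ring
    rw [h4]
    exact dvd_add (Dvd.dvd.mul_right h3 _) (Dvd.dvd.mul_left ih _)

/-- cycles inside one residue class -/
theorem period_in_class (F : ℤ_[p][X]) {x : ℤ_[p]} (h1 : (p : ℤ_[p]) ∣ F.eval x - x)
    {n : ℕ} (hn : 0 < n) (hx : (fun y => F.eval y)^[n] x = x) :
    (fun y => F.eval y)^[(p - 1) * p] x = x := by
  by_cases h2 : (p : ℤ_[p]) ∣ (derivative F).eval x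
  · have h3 := fixed_of_contract F h1 h2 hn hx
    exact Function.iterate_fixed h3 _
  · -- unit derivative
    have h3 : (p : ℤ_[p]) ∣ (iter F (p - 1)).eval x - x := by
      rw [eval_iter]
      exact iterate_sub F h1 _
    have h4 : (p : ℤ_[p]) ∣ (derivative (iter F (p - 1))).eval x - 1 := by
      have h5 := derivative_iter_congr F h1 (p - 1)
      have h6 := fermat h2
      have h7 := dvd_add h5 h6
      simpa using h7
    obtain ⟨h5, h6⟩ := one_sq (iter F (p - 1)) h3 h4
    have hf1 : (fun y => (iter F (p - 1)).eval y) = (fun y => F.eval y)^[p - 1] := by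
      funext y
      exact eval_iter F _ y
    have hf2 : (fun y => (iter (iter F (p - 1)) p).eval y) = (fun y => F.eval y)^[(p - 1) * p] := by
      funext y
      rw [eval_iter, hf1, Function.iterate_mul]
    have h7 := fixed_of_one' hn (iter (iter F (p - 1)) p) h5 h6 (by
      rw [hf2, ← Function.iterate_mul, mul_comm, Function.iterate_mul]
      exact Function.iterate_fixed hx _)
    rw [← hf2]
    exact h7

/-- the exponent `p! * (p - 1) * p` -/
def expo (p : ℕ) : ℕ := p.factorial * ((p - 1) * p)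

/-- pigeonhole: residues along an orbit -/
theorem exists_residue_repeat (φ : ℤ_[p] → ℤ_[p]) (x : ℤ_[p]) :
    ∃ i a : ℕ, 0 < a ∧ a ≤ p ∧ i + a ≤ p ∧ (p : ℤ_[p]) ∣ φ^[i + a] x - φ^[i] x := by
  have hcard : Fintype.card (ZMod p) < Fintype.card (Fin (p + 1)) := by
    rw [ZMod.card, Fintype.card_fin]
    omega
  obtain ⟨i, j, hij, hr⟩ := Fintype.exists_ne_map_eq_of_card_lt
    (fun i : Fin (p + 1) => PadicInt.toZMod (φ^[(i : ℕ)] x)) hcard
  have main : ∀ i j : Fin (p + 1), (i : ℕ) < j →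
      PadicInt.toZMod (φ^[(i : ℕ)] x) = PadicInt.toZMod (φ^[(j : ℕ)] x) →
      ∃ i a : ℕ, 0 < a ∧ a ≤ p ∧ i + a ≤ p ∧ (p : ℤ_[p]) ∣ φ^[i + a] x - φ^[i] x := by
    intro i j hij hr
    refine ⟨i, j - i, by omega, by omega, by omega, ?_⟩
    rw [dvd_iff_toZMod, map_sub, Nat.add_sub_cancel' hij.le, hr, sub_self]
  rcases lt_trichotomy (i : ℕ) (j : ℕ) with h | h | h
  · exact main i j h hr
  · exact absurd (Fin.ext h) hij
  · exact main j i h hr.symm

theorem dvd_shift (F : ℤ_[p][X]) {x y : ℤ_[p]} (h : (p : ℤ_[p]) ∣ x - y) (n : ℕ) :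
    (p : ℤ_[p]) ∣ (fun y => F.eval y)^[n] x - (fun y => F.eval y)^[n] y := by
  induction n with
  | zero => simpa using h
  | succ n ih =>
    rw [Function.iterate_succ_apply', Function.iterate_succ_apply']
    exact ih.trans (sub_dvd_eval_sub _ _ _)

/-- every cycle has length dividing `expo p` -/
theorem period_dvd (F : ℤ_[p][X]) {x : ℤ_[p]} {n : ℕ} (hn : 0 < n)
    (hx : (fun y => F.eval y)^[n] x = x) : (fun y => F.eval y)^[expo p] x = x := by
  set φ : ℤ_[p] → ℤ_[p] := fun y => F.eval y with hφ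
  obtain ⟨i, a, ha, hap, hia, hdiv⟩ := exists_residue_repeat φ x
  -- shift to x
  have h1 : (p : ℤ_[p]) ∣ φ^[a] x - x := by
    have h2 := dvd_shift F hdiv (n * i - i)
    rw [← hφ, ← Function.iterate_add_apply, ← Function.iterate_add_apply] at h2
    have h3 : n * i - i + (i + a) = a + n * i := by
      have : i ≤ n * i := Nat.le_mul_of_pos_left _ hn
      omega
    have h4 : n * i - i + i = n * i := by
      have : i ≤ n * i := Nat.le_mul_of_pos_left _ hn
      omega
    rw [h3, h4, Function.iterate_add_apply, Function.iterate_mul] at h2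
    have h5 : (φ^[n])^[i] x = x := Function.iterate_fixed hx _
    rw [h5] at h2
    exact h2
  have hfa : (fun y => (iter F a).eval y) = φ^[a] := by
    funext y
    exact eval_iter F a y
  have h2 := period_in_class (iter F a) (x := x) (by rw [eval_iter]; exact h1) hn (by
    rw [hfa, ← Function.iterate_mul, mul_comm, Function.iterate_mul]
    exact Function.iterate_fixed hx _)
  rw [hfa, ← Function.iterate_mul] at h2
  obtain ⟨b, hb⟩ : a ∣ p.factorial := Nat.dvd_factorial ha hap
  have h3 : expo p = a * ((p - 1) * p) * b := by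
    rw [expo, hb]; ring
  rw [h3, Function.iterate_mul]
  exact Function.iterate_fixed h2 _

end Pool.Agent.OddDyn
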