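import Mathlib
import Pool.Agent.OddDyn.Integral

set_option autoImplicit false

/-!
Tails of preperiodic points of polynomials over the `p`-adic integers.
-/

namespace Pool.Agent.OddDyn

open Polynomial

variable {p : ℕ} [hp : Fact p.Prime]

theorem tail_class (F : ℤ_[p][X]) {α y : ℤ_[p]} {w k : ℕ} (hα : F.eval α = α)
    (hw : ¬ (p : ℤ_[p]) ^ (w + 1) ∣ (derivative F).eval α) (hy : (p : ℤ_[p]) ∣ y - α)
    (hk : (fun y => F.eval y)^[k] y = α) : (fun y => F.eval y)^[w] y = α := by
  set φ : ℤ_[p] → ℤ_[p] := fun y => F.eval y with hφ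
  have hαn : ∀ n : ℕ, φ^[n] α = α := fun n => Function.iterate_fixed hα n
  have step : ∀ j : ℕ, ∃ e : ℤ_[p], φ^[j + 1] y - α =
      (φ^[j] y - α) * ((derivative F).eval α + e * (φ^[j] y - α)) := by
    intro j
    obtain ⟨e, he⟩ := eval_sub_eval F (φ^[j] y) α
    refine ⟨e, ?_⟩
    rw [← he, Function.iterate_succ_apply', hα]
  have hdiv : ∀ j : ℕ, (p : ℤ_[p]) ∣ φ^[j] y - α := by
    intro j
    have := dvd_shift F hy j
    rw [← hφ, hαn] at this
    exact this
  by_cases h : (p : ℤ_[p]) ∣ (derivative F).eval α
  · -- attracting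
    have h1 : ∀ j : ℕ, (p : ℤ_[p]) ^ (j + 1) ∣ φ^[j] y - α := by
      intro j
      induction j with
      | zero => simpa using hy
      | succ j ih =>
        obtain ⟨e, he⟩ := step j
        rw [he, pow_succ]
        exact mul_dvd_mul ih (dvd_add h (Dvd.dvd.mul_left (hdiv j) _))
    by_contra hne
    have h2 : ∀ i : ℕ, φ^[w + i] y - α ≠ 0 ∧ (p : ℤ_[p]) ^ (w + 1) ∣ φ^[w + i] y - α := by
      intro i
      induction i with
      | zero => exact ⟨sub_ne_zero.mpr hne, h1 w⟩
      | succ i ih =>
        obtain ⟨e, he⟩ := step (w + i)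
        rw [← add_assoc, he]
        refine ⟨mul_ne_zero ih.1 ?_, Dvd.dvd.mul_right ih.2 _⟩
        intro h0
        apply hw
        have h3 : (derivative F).eval α = -(e * (φ^[w + i] y - α)) := by
          linear_combination h0
        rw [h3]
        exact (Dvd.dvd.mul_left ih.2 _).neg_right
    rcases Nat.lt_or_ge k w with hkw | hkw
    · apply hne
      have h3 : w = (w - k) + k := by omega
      rw [h3, Function.iterate_add_apply, hk, hαn]
    · have h3 := (h2 (k - w)).1
      rw [Nat.add_sub_cancel' hkw, hk, sub_self] at h3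
      exact h3 rfl
  · -- indifferent
    have h1 : y = α := by
      by_contra hne
      have h2 : ∀ j : ℕ, φ^[j] y - α ≠ 0 := by
        intro j
        induction j with
        | zero => exact sub_ne_zero.mpr hne
        | succ j ih =>
          obtain ⟨e, he⟩ := step j
          rw [he]
          refine mul_ne_zero ih ?_
          intro h0
          apply h
          have h3 : (derivative F).eval α = -(e * (φ^[j] y - α)) := by
            linear_combination h0
          rw [h3]
          exact (Dvd.dvd.mul_left (hdiv j) _).neg_right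
      apply h2 k
      rw [hk, sub_self]
    rw [h1]
    exact hαn w

omit hp in
theorem le_expo (hp' : p.Prime) : p ≤ expo p := by
  have h1 : 0 < p.factorial := Nat.factorial_pos p
  have h2 : 0 < p - 1 := by have := hp'.two_le; omega
  unfold expo
  calc p = 1 * (1 * p) := by ring
    _ ≤ p.factorial * ((p - 1) * p) := by gcongr <;> omega

theorem residue_const (F : ℤ_[p][X]) (x : ℤ_[p]) (m : ℕ) :
    (p : ℤ_[p]) ∣ (fun y => F.eval y)^[expo p + expo p * m] x - (fun y => F.eval y)^[expo p] x := by
  set φ : ℤ_[p] → ℤ_[p] := fun y => F.eval y with hφ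
  obtain ⟨i, a, ha, hap, hia, hdiv⟩ := exists_residue_repeat φ x
  have h1 : ∀ b : ℕ, (p : ℤ_[p]) ∣ φ^[expo p + a * b] x - φ^[expo p] x := by
    intro b
    induction b with
    | zero => simp
    | succ b ih =>
      have h2 := dvd_shift F hdiv (expo p + a * b - i)
      rw [← hφ, ← Function.iterate_add_apply, ← Function.iterate_add_apply] at h2
      have hle : i ≤ expo p := by have := le_expo hp.out; omega
      have h3 : expo p + a * b - i + (i + a) = expo p + a * (b + 1) := by
        rw [mul_add, mul_one]; omega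
      have h4 : expo p + a * b - i + i = expo p + a * b := by omega
      rw [h3, h4] at h2
      have h5 : φ^[expo p + a * (b + 1)] x - φ^[expo p] x =
        (φ^[expo p + a * (b + 1)] x - φ^[expo p + a * b] x) +
        (φ^[expo p + a * b] x - φ^[expo p] x) := by ring
      rw [h5]
      exact dvd_add h2 ih
  obtain ⟨b, hb⟩ : a ∣ p.factorial := Nat.dvd_factorial ha hap
  have h2 := h1 (b * ((p - 1) * p) * m)
  have h3 : a * (b * ((p - 1) * p) * m) = expo p * m := by
    rw [expo, hb]; ring
  rwa [h3] at h2

/-- tail bound -/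
theorem tail_bound (F : ℤ_[p][X]) {x : ℤ_[p]} {m n w : ℕ} (hn : 0 < n)
    (hx : (fun y => F.eval y)^[m + n] x = (fun y => F.eval y)^[m] x)
    (hw : ∀ α : ℤ_[p], (∃ k, (fun y => F.eval y)^[k] x = α) → (fun y => F.eval y)^[expo p] α = α →
      ¬ (p : ℤ_[p]) ^ (w + 1) ∣ (derivative (iter F (expo p))).eval α) :
    (fun y => F.eval y)^[expo p * (w + 1) + expo p] x =
      (fun y => F.eval y)^[expo p * (w + 1)] x := by
  set φ : ℤ_[p] → ℤ_[p] := fun y => F.eval y with hφ
  set N := expo p with hN
  have hNpos : 0 < N := lt_of_lt_of_le hp.out.pos (le_expo hp.out)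
  set α := φ^[N * (m + 1)] x with hα
  have hge : m ≤ N * (m + 1) := by nlinarith
  have hper : φ^[n] α = α := by
    rw [hα, ← Function.iterate_add_apply]
    have h1 : n + N * (m + 1) = (N * (m + 1) - m) + (m + n) := by omega
    have h2 : N * (m + 1) = (N * (m + 1) - m) + m := by omega
    rw [h1, Function.iterate_add_apply, hx, ← Function.iterate_add_apply, ← h2]
  have hfix : φ^[N] α = α := period_dvd F hn hper
  have hΦ : (fun y => (iter F N).eval y) = φ^[N] := by
    funext y
    exact eval_iter F N y
  have h1 : (p : ℤ_[p]) ∣ φ^[N] x - α := by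
    have h2 := residue_const F x m
    rw [← hφ, ← hN] at h2
    have h3 : N + N * m = N * (m + 1) := by ring
    rw [h3, ← hα] at h2
    rw [← dvd_neg, neg_sub]
    exact h2
  have h2 : (fun y => (iter F N).eval y)^[m] (φ^[N] x) = α := by
    rw [hΦ, ← Function.iterate_mul, ← Function.iterate_add_apply, hα]
    congr 1
  have h3 := tail_class (iter F N) (α := α) (y := φ^[N] x) (w := w) (k := m)
    (by rw [eval_iter]; exact hfix) (hw α ⟨_, hα.symm⟩ hfix) h1 h2
  rw [hΦ, ← Function.iterate_mul, ← Function.iterate_add_apply] at h3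
  have h4 : N * w + N = N * (w + 1) := by ring
  rw [h4] at h3
  rw [add_comm, Function.iterate_add_apply, h3, hfix]

end Pool.Agent.OddDyn
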