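import Mathlib
import Pool.Agent.OddDyn.Large
import Pool.Agent.OddDyn.Tail

set_option autoImplicit false

/-!
Rescaling to integral coefficients, and the two results over `ℚ_p`.
-/

namespace Pool.Agent.OddDyn

open Polynomial

variable {p : ℕ} [hp : Fact p.Prime]

/-- the scaling factor -/
theorem exists_scale {r : ℚ_[p]} (hr : r ≠ 0) {m : ℕ} (hm : 0 < m) :
    ∃ l : ℚ_[p], l ≠ 0 ∧ ‖r‖ * ‖l‖ ^ m ≤ 1 ∧
      ∀ z : ℚ_[p], ‖r‖ * ‖z‖ ^ m ≤ 1 → ‖z‖ ≤ ‖l‖ := by
  have hp1 : (1 : ℝ) < p := by exact_mod_cast hp.out.one_lt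
  have hp0 : (0 : ℝ) < p := by linarith
  set V : ℤ := r.valuation with hV
  have hrn : ‖r‖ = (p : ℝ) ^ (-V) := Padic.norm_eq_zpow_neg_valuation hr
  set n : ℤ := V / (m : ℤ) with hn
  have hl : ‖((p : ℚ_[p]) ^ (-n))‖ = (p : ℝ) ^ n := by
    rw [Padic.norm_p_zpow, neg_neg]
  have hm' : (0 : ℤ) < m := by exact_mod_cast hm
  refine ⟨(p : ℚ_[p]) ^ (-n), ?_, ?_, ?_⟩
  · apply zpow_ne_zero
    exact_mod_cast hp.out.ne_zero
  · rw [hl, hrn, ← zpow_natCast, ← zpow_mul, ← zpow_add₀ hp0.ne']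
    have h1 : n * (m : ℤ) ≤ V := Int.ediv_mul_le _ hm'.ne'
    calc (p : ℝ) ^ (-V + n * (m : ℤ)) ≤ (p : ℝ) ^ (0 : ℤ) :=
          zpow_le_zpow_right₀ hp1.le (by linarith)
      _ = 1 := zpow_zero _
  · intro z hz
    rw [hl]
    by_cases hz0 : z = 0
    · rw [hz0, norm_zero]
      positivity
    · rw [Padic.norm_eq_zpow_neg_valuation hz0] at hz ⊢
      rw [hrn, ← zpow_natCast, ← zpow_mul, ← zpow_add₀ hp0.ne'] at hz
      have h1 : -V + -z.valuation * (m : ℤ) ≤ 0 := by
        by_contra hlt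
        push Not at hlt
        have := one_lt_zpow₀ hp1 hlt
        linarith
      refine zpow_le_zpow_right₀ hp1.le ?_
      rw [hn, Int.le_ediv_iff_mul_le hm']
      linarith

/-- lifting to `ℤ_p` -/
theorem exists_lift {g : ℚ_[p][X]} (hg : ∀ i, ‖g.coeff i‖ ≤ 1) :
    ∃ h : ℤ_[p][X], h.map PadicInt.Coe.ringHom = g := by
  have : g ∈ lifts (PadicInt.Coe.ringHom (p := p)) := by
    rw [lifts_iff_coeff_lifts]
    intro n
    exact ⟨⟨g.coeff n, hg n⟩, rfl⟩
  exact (mem_lifts _).mp this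

section

variable {f : ℚ_[p][X]} (hf : Good f) (hd : 2 ≤ f.natDegree)

include hf hd

/-- integral model -/
theorem exists_model (hA : ‖f.leadingCoeff‖ * ‖f.coeff 0‖ ^ (f.natDegree - 1) ≤ 1) :
    ∃ (l : ℚ_[p]) (h : ℤ_[p][X]), l ≠ 0 ∧
      (∀ x : ℚ_[p], (Set.range (fun n => (fun y => f.eval y)^[n] x)).Finite →
        ∃ u : ℤ_[p], l * u = x) ∧
      (∀ u : ℤ_[p], f.eval (l * u) = l * (h.eval u : ℤ_[p])) ∧
      (∀ u : ℤ_[p], (derivative f).eval (l * u) = ((derivative h).eval u : ℤ_[p])) := by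
  have hr := lead_pos hf hd
  obtain ⟨l, hl0, hl1, hl2⟩ := exists_scale (norm_pos_iff.mp hr) (m := f.natDegree - 1) (by omega)
  have hlpos : 0 < ‖l‖ := norm_pos_iff.mpr hl0
  set g : ℚ_[p][X] := C l⁻¹ * f.comp (C l * X) with hg
  have hgc : ∀ i, g.coeff i = l⁻¹ * (f.coeff i * l ^ i) := by
    intro i
    rw [hg, coeff_C_mul, comp_C_mul_X_coeff]
  have hgn : ∀ i, ‖g.coeff i‖ ≤ 1 := by
    intro i
    rw [hgc, norm_mul, norm_mul, norm_inv, norm_pow]
    rcases Nat.eq_zero_or_pos i with h0 | h0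
    · subst h0
      rw [pow_zero, mul_one, inv_mul_le_one₀ hlpos]
      exact hl2 _ hA
    · rcases lt_trichotomy i f.natDegree with h1 | h1 | h1
      · rw [inv_mul_le_one₀ hlpos]
        exact real_small (norm_nonneg _) hr hlpos.le h0 h1 (hf i h0 h1) hl1
      · rw [inv_mul_le_one₀ hlpos, h1]
        have h2 : ‖f.leadingCoeff‖ * ‖l‖ ^ f.natDegree ≤ ‖l‖ := by
          rw [real_succ _ _ (by omega)]
          calc _ ≤ 1 * ‖l‖ := by gcongr
            _ = ‖l‖ := one_mul _
        exact h2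
      · rw [coeff_eq_zero_of_natDegree_lt h1]
        simp
  obtain ⟨h, hh⟩ := exists_lift hgn
  refine ⟨l, h, hl0, ?_, ?_, ?_⟩
  · intro x hx
    have h1 : ‖f.leadingCoeff‖ * ‖x‖ ^ (f.natDegree - 1) ≤ 1 := by
      by_contra hlt
      push Not at hlt
      have h2 : ‖f.coeff 0‖ < ‖x‖ := real_lt_of hr (norm_nonneg _) hA hlt (norm_nonneg _)
      have hx0 : 0 < ‖x‖ := lt_of_le_of_lt (norm_nonneg _) h2
      refine not_preper_of_esc hf hd hlt ?_ hx
      rw [real_succ _ _ (by omega)]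
      nlinarith
    have h2 := hl2 x h1
    refine ⟨⟨x / l, ?_⟩, ?_⟩
    · rw [norm_div]
      exact div_le_one_of_le₀ h2 hlpos.le
    · show l * (x / l) = x
      field_simp
  · intro u
    have h1 : (h.map PadicInt.Coe.ringHom).eval (PadicInt.Coe.ringHom u) =
        PadicInt.Coe.ringHom (h.eval u) := by
      rw [eval_map, eval₂_hom]
    rw [hh, hg] at h1
    simp only [eval_mul, eval_C, eval_comp, eval_X] at h1
    have h2 : (PadicInt.Coe.ringHom u : ℚ_[p]) = (u : ℚ_[p]) := rfl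
    have h3 : (PadicInt.Coe.ringHom (h.eval u) : ℚ_[p]) = ((h.eval u : ℤ_[p]) : ℚ_[p]) := rfl
    rw [h2, h3] at h1
    rw [← h1]
    field_simp
  · intro u
    have h1 : ((derivative h).map PadicInt.Coe.ringHom).eval (PadicInt.Coe.ringHom u) =
        PadicInt.Coe.ringHom ((derivative h).eval u) := by
      rw [eval_map, eval₂_hom]
    rw [← derivative_map, hh, hg] at h1
    simp only [derivative_mul, derivative_C, zero_mul, zero_add, derivative_comp, eval_mul, eval_C,
      eval_comp, eval_X, derivative_X, mul_one] at h1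
    have h2 : (PadicInt.Coe.ringHom u : ℚ_[p]) = (u : ℚ_[p]) := rfl
    have h3 : (PadicInt.Coe.ringHom ((derivative h).eval u) : ℚ_[p]) =
      (((derivative h).eval u : ℤ_[p]) : ℚ_[p]) := rfl
    rw [h2, h3] at h1
    rw [← h1]
    field_simp

end

theorem iterate_model {f : ℚ_[p][X]} {l : ℚ_[p]} {h : ℤ_[p][X]}
    (h1 : ∀ u : ℤ_[p], f.eval (l * u) = l * (h.eval u : ℤ_[p])) (n : ℕ) (u : ℤ_[p]) :
    (fun y => f.eval y)^[n] (l * u) = l * ((fun y => h.eval y)^[n] u : ℤ_[p]) := by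
  induction n with
  | zero => rfl
  | succ n ih =>
    rw [Function.iterate_succ_apply', Function.iterate_succ_apply', ih]
    exact h1 _

theorem finite_range_of_iterate_eq {α : Type*} {φ : α → α} {x : α} {m n : ℕ} (hn : 0 < n)
    (h : φ^[m + n] x = φ^[m] x) : (Set.range (fun k => φ^[k] x)).Finite := by
  have h1 : ∀ k, ∃ j < m + n, φ^[k] x = φ^[j] x := by
    intro k
    induction k using Nat.strong_induction_on with
    | _ k ih =>
      rcases Nat.lt_or_ge k (m + n) with hk | hk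
      · exact ⟨k, hk, rfl⟩
      · obtain ⟨j, hj, hj2⟩ := ih (k - n) (by omega)
        refine ⟨j, hj, ?_⟩
        rw [← hj2]
        have h2 : k = (k - (m + n)) + (m + n) := by omega
        have h3 : k - n = (k - (m + n)) + m := by omega
        rw [h3]
        conv_lhs => rw [h2]
        rw [Function.iterate_add_apply, h, ← Function.iterate_add_apply]
  refine (Set.Finite.image (fun j => φ^[j] x) (Set.finite_lt_nat (m + n))).subset ?_
  rintro _ ⟨k, rfl⟩
  obtain ⟨j, hj, hj2⟩ := h1 k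
  exact ⟨j, hj, hj2.symm⟩

section

variable {f : ℚ_[p][X]} (hf : Good f) (hd : 2 ≤ f.natDegree)
  (hcop : Nat.Coprime f.natDegree (p * (p - 1)))

include hf hd hcop

/-- periodic points over `ℚ_p` -/
theorem periodic_padic {x : ℚ_[p]} {n : ℕ} (hn : 0 < n)
    (hx : (fun y => f.eval y)^[n] x = x) : (fun y => f.eval y)^[expo p] x = x := by
  have hfin : (Set.range (fun k => (fun y => f.eval y)^[k] x)).Finite :=
    finite_range_of_iterate_eq (m := 0) hn (by simpa using hx)
  rcases lt_or_ge 1 (‖f.leadingCoeff‖ * ‖f.coeff 0‖ ^ (f.natDegree - 1)) with hA | hA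
  · have h1 := unique_preper hf hd hcop hA (preper_succ hfin 1) hfin
    exact Function.iterate_fixed h1 _
  · obtain ⟨l, h, hl, h1, h2, -⟩ := exists_model hf hd hA
    obtain ⟨u, rfl⟩ := h1 x hfin
    rw [iterate_model h2] at hx ⊢
    have h3 : (fun y => h.eval y)^[n] u = u := by
      exact Subtype.ext (mul_left_cancel₀ hl hx)
    rw [period_dvd h hn h3]

/-- tails over `ℚ_p` -/
theorem tail_padic {x : ℚ_[p]} {m n w : ℕ} (hn : 0 < n)
    (hx : (fun y => f.eval y)^[m + n] x = (fun y => f.eval y)^[m] x)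
    (hw : ∀ α : ℚ_[p], (∃ k, (fun y => f.eval y)^[k] x = α) → (fun y => f.eval y)^[expo p] α = α →
      (p : ℝ) ^ (-(w : ℤ)) ≤
        ‖∏ j ∈ Finset.range (expo p), (derivative f).eval ((fun y => f.eval y)^[j] α)‖) :
    (fun y => f.eval y)^[expo p * (w + 1) + expo p] x =
      (fun y => f.eval y)^[expo p * (w + 1)] x := by
  have hp1 : (1 : ℝ) < p := by exact_mod_cast hp.out.one_lt
  have hfin : (Set.range (fun k => (fun y => f.eval y)^[k] x)).Finite :=
    finite_range_of_iterate_eq hn hx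
  rcases lt_or_ge 1 (‖f.leadingCoeff‖ * ‖f.coeff 0‖ ^ (f.natDegree - 1)) with hA | hA
  · have h1 : (fun y => f.eval y) x = x :=
      unique_preper hf hd hcop hA (preper_succ hfin 1) hfin
    rw [Function.iterate_fixed h1, Function.iterate_fixed h1]
  · obtain ⟨l, h, hl, h1, h2, h3⟩ := exists_model hf hd hA
    obtain ⟨u, rfl⟩ := h1 x hfin
    rw [iterate_model h2, iterate_model h2] at hx ⊢
    have h4 : (fun y => h.eval y)^[m + n] u = (fun y => h.eval y)^[m] u := by
      exact Subtype.ext (mul_left_cancel₀ hl hx)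
    rw [tail_bound h hn h4]
    intro β hβ1 hβ2 hdvd
    obtain ⟨k, hk⟩ := hβ1
    have h5 := hw (l * β) ⟨k, by rw [iterate_model h2, hk]⟩ (by rw [iterate_model h2, hβ2])
    have h6 : ∏ j ∈ Finset.range (expo p), (derivative f).eval ((fun y => f.eval y)^[j] (l * β)) =
        (((derivative (iter h (expo p))).eval β : ℤ_[p]) : ℚ_[p]) := by
      rw [derivative_iter]
      have h10 := map_prod (PadicInt.Coe.ringHom (p := p))
        (fun j => (derivative h).eval ((fun y => h.eval y)^[j] β)) (Finset.range (expo p))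
      refine Eq.trans ?_ h10.symm
      refine Finset.prod_congr rfl ?_
      intro j _
      rw [iterate_model h2, h3]
      rfl
    rw [h6, ← PadicInt.norm_def] at h5
    have h7 : ‖(derivative (iter h (expo p))).eval β‖ ≤ (p : ℝ) ^ (-((w + 1 : ℕ) : ℤ)) := by
      rw [PadicInt.norm_le_pow_iff_mem_span_pow, Ideal.mem_span_singleton]
      exact hdvd
    have h8 : (p : ℝ) ^ (-((w + 1 : ℕ) : ℤ)) < (p : ℝ) ^ (-(w : ℤ)) := by
      apply zpow_lt_zpow_right₀ hp1
      push_cast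
      linarith
    linarith

end

end Pool.Agent.OddDyn
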