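import Mathlib
import Pool.Agent.OddDyn.Scale

set_option autoImplicit false

/-!
Transfer to `ℚ`.
-/

namespace Pool.Agent.OddDyn

open Polynomial

/-- the conjugate of `f` by the translation by `t` -/
noncomputable def shift (f : ℚ[X]) (t : ℚ) : ℚ[X] := f.comp (X + C t) - C t

theorem eval_shift (f : ℚ[X]) (t x : ℚ) : (shift f t).eval x = f.eval (x + t) - t := by
  simp [shift]

theorem iterate_shift (f : ℚ[X]) (t x : ℚ) (n : ℕ) :
    (fun y => (shift f t).eval y)^[n] x = (fun y => f.eval y)^[n] (x + t) - t := by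
  induction n with
  | zero => simp
  | succ n ih =>
    rw [Function.iterate_succ_apply', Function.iterate_succ_apply', ih]
    simp [eval_shift]

theorem derivative_shift (f : ℚ[X]) (t x : ℚ) :
    (derivative (shift f t)).eval x = (derivative f).eval (x + t) := by
  simp [shift, derivative_comp]

theorem natDegree_shift {f : ℚ[X]} (_hd : 1 ≤ f.natDegree) (t : ℚ) :
    (shift f t).natDegree = f.natDegree := by
  rw [shift, natDegree_sub_C, natDegree_comp, natDegree_X_add_C, mul_one]

theorem coeff_shift {f : ℚ[X]} (t : ℚ) {i : ℕ} (hi : 1 ≤ i) :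
    (shift f t).coeff i = (f.comp (X + C t)).coeff i := by
  rw [shift, coeff_sub, coeff_C, if_neg (by omega), sub_zero]

theorem leadingCoeff_shift {f : ℚ[X]} (hd : 1 ≤ f.natDegree) (t : ℚ) :
    (shift f t).leadingCoeff = f.leadingCoeff := by
  have h1 : (f.comp (X + C t)).natDegree = f.natDegree := by
    rw [natDegree_comp, natDegree_X_add_C, mul_one]
  rw [leadingCoeff, natDegree_shift hd, coeff_shift t hd]
  have h2 : (f.comp (X + C t)).leadingCoeff = f.leadingCoeff := by
    rw [leadingCoeff_comp (by rw [natDegree_X_add_C]; exact one_ne_zero), leadingCoeff_X_add_C,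
      one_pow, mul_one]
  rw [← h2, leadingCoeff, h1]

section

variable {p : ℕ} [hp : Fact p.Prime]

/-- the polynomial over `ℚ_p` -/
noncomputable def toP (p : ℕ) [Fact p.Prime] (f : ℚ[X]) : ℚ_[p][X] := f.map (Rat.castHom ℚ_[p])

theorem eval_toP (f : ℚ[X]) (x : ℚ) : (toP p f).eval (x : ℚ_[p]) = ((f.eval x : ℚ) : ℚ_[p]) := by
  have h : ((x : ℚ) : ℚ_[p]) = Rat.castHom ℚ_[p] x := rfl
  rw [toP, h, eval_map, eval₂_hom]
  rfl

theorem derivative_toP (f : ℚ[X]) (x : ℚ) :
    (derivative (toP p f)).eval (x : ℚ_[p]) = (((derivative f).eval x : ℚ) : ℚ_[p]) := by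
  rw [toP, derivative_map]
  exact eval_toP (derivative f) x

theorem iterate_toP (f : ℚ[X]) (x : ℚ) (n : ℕ) :
    (fun y => (toP p f).eval y)^[n] (x : ℚ_[p]) = (((fun y => f.eval y)^[n] x : ℚ) : ℚ_[p]) := by
  induction n with
  | zero => rfl
  | succ n ih =>
    rw [Function.iterate_succ_apply', Function.iterate_succ_apply', ih]
    exact eval_toP f _

theorem natDegree_toP (f : ℚ[X]) : (toP p f).natDegree = f.natDegree :=
  natDegree_map _

theorem leadingCoeff_toP (f : ℚ[X]) : (toP p f).leadingCoeff = ((f.leadingCoeff : ℚ) : ℚ_[p]) := by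
  rw [toP, leadingCoeff_map]
  rfl

theorem coeff_toP (f : ℚ[X]) (i : ℕ) : (toP p f).coeff i = ((f.coeff i : ℚ) : ℚ_[p]) := by
  rw [toP, coeff_map]
  rfl

theorem good_toP {f : ℚ[X]} {d : ℕ} (hd : 2 ≤ d) (hf : f.natDegree = d) {t : ℚ}
    (hcoef : ∀ i, 1 ≤ i → i < d → padicNorm p ((f.comp (X + C t)).coeff i) ^ (d - 1) ≤
      padicNorm p f.leadingCoeff ^ (i - 1)) : Good (toP p (shift f t)) := by
  intro i h1 h2
  rw [natDegree_toP, natDegree_shift (by omega), hf] at h2 ⊢
  rw [coeff_toP, coeff_shift t h1, leadingCoeff_toP, leadingCoeff_shift (by omega),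
    Padic.eq_padicNorm, Padic.eq_padicNorm]
  exact_mod_cast hcoef i h1 h2

theorem periodic_rat {f : ℚ[X]} {d : ℕ} (hd : 2 ≤ d) (hf : f.natDegree = d)
    (hcop : Nat.Coprime d (p * (p - 1))) {t : ℚ}
    (hcoef : ∀ i, 1 ≤ i → i < d → padicNorm p ((f.comp (X + C t)).coeff i) ^ (d - 1) ≤
      padicNorm p f.leadingCoeff ^ (i - 1)) {x : ℚ} {n : ℕ} (hn : 0 < n)
    (hx : (fun y => f.eval y)^[n] x = x) : (fun y => f.eval y)^[expo p] x = x := by
  have hdeg : (toP p (shift f t)).natDegree = d := by
    rw [natDegree_toP, natDegree_shift (by omega), hf]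
  have h1 := periodic_padic (f := toP p (shift f t)) (good_toP hd hf hcoef) (by rw [hdeg]; exact hd)
    (by rw [hdeg]; exact hcop) (x := ((x - t : ℚ) : ℚ_[p])) hn (by
      rw [iterate_toP, iterate_shift, sub_add_cancel, hx])
  rw [iterate_toP, iterate_shift, sub_add_cancel] at h1
  have h2 : (fun y => f.eval y)^[expo p] x - t = x - t := by exact_mod_cast h1
  linarith

theorem tail_rat {f : ℚ[X]} {d : ℕ} (hd : 2 ≤ d) (hf : f.natDegree = d)
    (hcop : Nat.Coprime d (p * (p - 1))) {t : ℚ}
    (hcoef : ∀ i, 1 ≤ i → i < d → padicNorm p ((f.comp (X + C t)).coeff i) ^ (d - 1) ≤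
      padicNorm p f.leadingCoeff ^ (i - 1)) {x : ℚ} {m n w : ℕ} (hn : 0 < n)
    (hx : (fun y => f.eval y)^[m + n] x = (fun y => f.eval y)^[m] x)
    (hw : ∀ α : ℚ, (∃ k, (fun y => f.eval y)^[k] x = α) → (fun y => f.eval y)^[expo p] α = α →
      (p : ℚ) ^ (-(w : ℤ)) ≤
        padicNorm p (∏ j ∈ Finset.range (expo p), (derivative f).eval
          ((fun y => f.eval y)^[j] α))) :
    (fun y => f.eval y)^[expo p * (w + 1) + expo p] x =
      (fun y => f.eval y)^[expo p * (w + 1)] x := by
  have hdeg : (toP p (shift f t)).natDegree = d := by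
    rw [natDegree_toP, natDegree_shift (by omega), hf]
  have h1 := tail_padic (f := toP p (shift f t)) (good_toP hd hf hcoef) (by rw [hdeg]; exact hd)
    (by rw [hdeg]; exact hcop) (x := ((x - t : ℚ) : ℚ_[p])) (m := m) (w := w) hn (by
      rw [iterate_toP, iterate_toP, iterate_shift, iterate_shift, sub_add_cancel, hx]) (by
      rintro α ⟨k, hk⟩ hα
      rw [iterate_toP, iterate_shift, sub_add_cancel] at hk
      subst hk
      rw [iterate_toP, iterate_shift, sub_add_cancel] at hα
      have h2 : (fun y => f.eval y)^[expo p] ((fun y => f.eval y)^[k] x) - t =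
        (fun y => f.eval y)^[k] x - t := by exact_mod_cast hα
      have h3 := hw ((fun y => f.eval y)^[k] x) ⟨k, rfl⟩ (by linarith)
      have h4 : ∏ j ∈ Finset.range (expo p), (derivative (toP p (shift f t))).eval
          ((fun y => (toP p (shift f t)).eval y)^[j]
            (((fun y => f.eval y)^[k] x - t : ℚ) : ℚ_[p])) =
          ((∏ j ∈ Finset.range (expo p), (derivative f).eval
            ((fun y => f.eval y)^[j] ((fun y => f.eval y)^[k] x)) : ℚ) : ℚ_[p]) := by
        rw [Rat.cast_prod]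
        refine Finset.prod_congr rfl ?_
        intro j _
        rw [iterate_toP, derivative_toP, derivative_shift, iterate_shift, sub_add_cancel,
          sub_add_cancel]
      rw [h4, Padic.eq_padicNorm]
      have h5 := (Rat.cast_le (K := ℝ)).mpr h3
      rw [Rat.cast_zpow, Rat.cast_natCast] at h5
      exact h5)
  rw [iterate_toP, iterate_toP, iterate_shift, iterate_shift, sub_add_cancel] at h1
  have h2 : (fun y => f.eval y)^[expo p * (w + 1) + expo p] x - t =
    (fun y => f.eval y)^[expo p * (w + 1)] x - t := by exact_mod_cast h1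
  linarith

end

/-- finite orbits are eventually periodic -/
theorem exists_iterate_eq {α : Type*} {φ : α → α} {x : α} (h : {y : α | ∃ k : ℕ, φ^[k] x = y}.Finite) :
    ∃ m n : ℕ, 0 < n ∧ φ^[m + n] x = φ^[m] x := by
  have h1 : (Set.range (fun k => φ^[k] x)).Finite := h
  obtain ⟨a, b, hab, h2⟩ : ∃ a b : ℕ, a ≠ b ∧ φ^[a] x = φ^[b] x := by
    by_contra hcon
    push Not at hcon
    have hinj : Function.Injective (fun k => φ^[k] x) := by
      intro a b hab
      by_contra hne
      exact hcon a b hne hab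
    exact Set.infinite_range_of_injective hinj h1
  rcases lt_or_gt_of_ne hab with h3 | h3
  · exact ⟨a, b - a, by omega, by rw [Nat.add_sub_cancel' h3.le, h2]⟩
  · exact ⟨b, a - b, by omega, by rw [Nat.add_sub_cancel' h3.le, h2]⟩

/-- products along a cycle -/
theorem prod_cycle {α : Type*} {φ : α → α} {x : α} {n : ℕ} (hx : φ^[n] x = x) (g : α → ℚ) (q : ℕ) :
    ∏ j ∈ Finset.range (n * q), g (φ^[j] x) = (∏ j ∈ Finset.range n, g (φ^[j] x)) ^ q := by
  induction q with
  | zero => simp
  | succ q ih =>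
    rw [mul_add, mul_one, Finset.prod_range_add, ih, pow_succ]
    congr 1
    refine Finset.prod_congr rfl ?_
    intro j _
    rw [add_comm, Function.iterate_add_apply, Function.iterate_mul, Function.iterate_fixed hx]

end Pool.Agent.OddDyn
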