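import Mathlib
import Pool.Agent.OddDyn.Rat

set_option autoImplicit false

/-!
Counting preperiodic points under a bound for the multipliers.
-/

namespace Pool.Agent.OddDyn

open Polynomial

theorem padicNorm_pow {p : ℕ} [hp : Fact p.Prime] (x : ℚ) (k : ℕ) :
    padicNorm p (x ^ k) = padicNorm p x ^ k := by
  induction k with
  | zero => simp
  | succ k ih => rw [pow_succ, padicNorm.mul, pow_succ, ih]

theorem card_preper {p : ℕ} [hp : Fact p.Prime] {f : ℚ[X]} {d : ℕ} (hd : 2 ≤ d)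
    (hf : f.natDegree = d) (hcop : Nat.Coprime d (p * (p - 1))) {t : ℚ}
    (hcoef : ∀ i, 1 ≤ i → i < d → padicNorm p ((f.comp (X + C t)).coeff i) ^ (d - 1) ≤
      padicNorm p f.leadingCoeff ^ (i - 1)) {w : ℕ} (T : Finset ℚ)
    (hw : ∀ x ∈ T, ∀ α : ℚ, (∃ k, (fun y => f.eval y)^[k] x = α) →
      (fun y => f.eval y)^[expo p] α = α →
      (p : ℚ) ^ (-(w : ℤ)) ≤
        padicNorm p (∏ j ∈ Finset.range (expo p), (derivative f).eval
          ((fun y => f.eval y)^[j] α)))
    (hT : ∀ x ∈ T, {y : ℚ | ∃ k : ℕ, (fun y => f.eval y)^[k] x = y}.Finite) :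
    T.card ≤ d ^ (expo p * (w + 1) + expo p) := by
  refine card_le_of_iterate_eq hf hd (m := expo p * (w + 1)) ?_ T ?_
  · have := lt_of_lt_of_le hp.out.pos (le_expo hp.out)
    omega
  · intro x hx
    obtain ⟨m, n, hn, hmn⟩ := exists_iterate_eq (hT x hx)
    exact tail_rat hd hf hcop hcoef hn hmn (hw x hx)

end Pool.Agent.OddDyn
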