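import Mathlib

set_option autoImplicit false

/-!
Primes `p ≡ 2 mod 3` for which a given non-square integer is a non-residue.
-/

namespace Pool.Agent.OddDyn

open scoped NumberTheorySymbols

/-- the residue class for squarefree `|s| = a` -/
theorem exists_residue {a : ℕ} (ha : Squarefree a) {s : ℤ} (hs : s.natAbs = a) (hs1 : s ≠ 1) :
    ∃ r : ℕ, r % 2 = 1 ∧ r % 3 = 2 ∧ Nat.Coprime r a ∧ jacobiSym s r = -1 := by
  have ha0 : a ≠ 0 := ha.ne_zero
  by_cases hodd : ∃ q : ℕ, q.Prime ∧ q ∣ a ∧ q ≠ 2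
  · -- an odd prime divisor, `3` if possible
    obtain ⟨q, hq, hqa, hq2, hq3⟩ : ∃ q : ℕ, q.Prime ∧ q ∣ a ∧ q ≠ 2 ∧ (3 ∣ a → q = 3) := by
      by_cases h3 : 3 ∣ a
      · exact ⟨3, Nat.prime_three, h3, by norm_num, fun _ => rfl⟩
      · obtain ⟨q, hq, hqa, hq2⟩ := hodd
        exact ⟨q, hq, hqa, hq2, fun h => absurd h h3⟩
    have : Fact q.Prime := ⟨hq⟩
    obtain ⟨a', rfl⟩ := hqa
    have hcop : Nat.Coprime q a' := Nat.coprime_of_squarefree_mul ha
    have ha'0 : a' ≠ 0 := by
      rintro rfl
      simp at ha0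
    have hqodd : Odd q := hq.odd_of_ne_two hq2
    have hcop2 : Nat.Coprime q (8 * a') := by
      refine Nat.Coprime.mul_right ?_ hcop
      have : Nat.Coprime q 2 := (Nat.coprime_primes hq Nat.prime_two).mpr hq2
      exact Nat.Coprime.pow_right 3 this
    -- the sign and cofactor
    obtain ⟨t, ht1, ht2⟩ : ∃ t : ℤ, s = t * q ∧ t.natAbs = a' := by
      rcases Int.natAbs_eq s with h | h
      · refine ⟨a', ?_, by simp⟩
        rw [h, hs]; push_cast; ring
      · refine ⟨-a', ?_, by simp⟩
        rw [h, hs]; push_cast; ring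
    -- a nonresidue modulo `q`, congruent to `2` modulo `3` if `q = 3`
    obtain ⟨z, hz⟩ : ∃ z : ZMod q, ¬ IsSquare z := by
      apply FiniteField.exists_nonsquare
      rw [ZMod.ringChar_zmod_n]
      exact hq2
    have hz' : ∀ r : ℕ, (r : ZMod q) = z → r % 8 = 1 → Nat.ModEq (8 * a') r 1 →
        Nat.Coprime r (q * a') ∧ jacobiSym s r = -1 := by
      intro r hr hr8 hra
      have hrodd : Odd r := by rw [Nat.odd_iff]; omega
      have h1 : jacobiSym q r = -1 := by
        rw [jacobiSym.quadratic_reciprocity_one_mod_four' hqodd (by omega),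
          ← jacobiSym.legendreSym.to_jacobiSym, legendreSym.eq_neg_one_iff]
        push_cast
        rw [hr]
        exact hz
      have h2 : jacobiSym t r = 1 := by
        rw [jacobiSym.mod_right t hrodd, ht2]
        have h3 : r % (4 * a') = 1 % (4 * a') := by
          have h4 : Nat.ModEq (4 * a') r 1 := hra.of_dvd ⟨2, by ring⟩
          exact h4
        rw [h3, Nat.mod_eq_of_lt (by omega)]
        exact jacobiSym.one_right t
      refine ⟨?_, ?_⟩
      · have h5 : Nat.Coprime r a' := by
          have h6 : Nat.ModEq a' r 1 := hra.of_dvd ⟨8, by ring⟩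
          have h7 := h6.gcd_eq
          simpa [Nat.Coprime] using h7
        have h8 : Nat.Coprime r q := by
          rw [Nat.coprime_comm, hq.coprime_iff_not_dvd]
          intro h9
          apply hz
          rw [← hr, (ZMod.natCast_eq_zero_iff r q).mpr h9]
          exact IsSquare.zero
        exact Nat.Coprime.mul_right h8 h5
      · rw [ht1, jacobiSym.mul_left, h2, h1, one_mul]
    by_cases h3 : q = 3
    · subst h3
      obtain ⟨r, hr1, hr2⟩ := Nat.chineseRemainder hcop2 z.val 1
      have hrz : (r : ZMod 3) = z := by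
        rw [← ZMod.natCast_zmod_val z]
        exact (ZMod.natCast_eq_natCast_iff _ _ _).mpr hr1
      have hr8 : r % 8 = 1 := by
        have : Nat.ModEq 8 r 1 := hr2.of_dvd ⟨a', rfl⟩
        exact this
      obtain ⟨h4, h5⟩ := hz' r hrz hr8 hr2
      refine ⟨r, by omega, ?_, h4, h5⟩
      by_contra h6
      have h7 : r % 3 = 0 ∨ r % 3 = 1 := by omega
      apply hz
      rw [← hrz]
      rcases h7 with h7 | h7
      · have : (r : ZMod 3) = ((0 : ℕ) : ZMod 3) := (ZMod.natCast_eq_natCast_iff _ _ _).mpr h7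
        rw [this, Nat.cast_zero]
        exact IsSquare.zero
      · have : (r : ZMod 3) = ((1 : ℕ) : ZMod 3) := (ZMod.natCast_eq_natCast_iff _ _ _).mpr h7
        rw [this, Nat.cast_one]
        exact IsSquare.one
    · have h3a : ¬ 3 ∣ q * a' := fun h => h3 (hq3 h)
      have hcop3 : Nat.Coprime (q * (8 * a')) 3 := by
        rw [Nat.coprime_comm, Nat.prime_three.coprime_iff_not_dvd]
        intro h
        apply h3a
        have h4 : 3 ∣ 8 * (q * a') := by
          have : q * (8 * a') = 8 * (q * a') := by ring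
          rwa [this] at h
        rcases (Nat.prime_three.dvd_mul).mp h4 with h5 | h5
        · norm_num at h5
        · exact h5
      obtain ⟨r0, hr1, hr2⟩ := Nat.chineseRemainder hcop2 z.val 1
      obtain ⟨r, hr3, hr4⟩ := Nat.chineseRemainder hcop3 r0 2
      have hrz : (r : ZMod q) = z := by
        rw [← ZMod.natCast_zmod_val z]
        refine (ZMod.natCast_eq_natCast_iff _ _ _).mpr ?_
        exact (hr3.of_dvd (dvd_mul_right _ _)).trans hr1
      have hra : Nat.ModEq (8 * a') r 1 := (hr3.of_dvd (dvd_mul_left _ _)).trans hr2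
      have hr8 : r % 8 = 1 := by
        have : Nat.ModEq 8 r 1 := hra.of_dvd ⟨a', rfl⟩
        exact this
      obtain ⟨h4, h5⟩ := hz' r hrz hr8 hra
      exact ⟨r, by omega, hr4, h4, h5⟩
  · -- `a ∈ {1, 2}`
    push Not at hodd
    have h12 : a = 1 ∨ a = 2 := by
      have h1 := Nat.eq_prime_pow_of_unique_prime_dvd ha0 (fun {q} hq hqa => hodd q hq hqa)
      rcases h : a.primeFactorsList.length with _ | _ | n
      · left; rw [h1, h]; norm_num
      · right; rw [h1, h]; norm_num
      · exfalso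
        have h2 : 2 * 2 ∣ a := by
          rw [h1, h]
          exact ⟨2 ^ n, by ring⟩
        have := ha 2 h2
        rw [Nat.isUnit_iff] at this
        omega
    rcases h12 with rfl | rfl
    · refine ⟨11, by norm_num, by norm_num, by norm_num, ?_⟩
      have : s = -1 := by
        rcases Int.natAbs_eq s with h | h
        · rw [hs] at h
          exact absurd h hs1
        · rw [h, hs]; norm_num
      rw [this]
      norm_num
    · refine ⟨5, by norm_num, by norm_num, by norm_num, ?_⟩
      rcases Int.natAbs_eq s with h | h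
      · rw [h, hs]; norm_num
      · rw [h, hs]; norm_num

theorem exists_prime_nonresidue {s : ℤ} (hs : ¬ IsSquare s) (M : ℕ) :
    ∃ p : ℕ, M < p ∧ p.Prime ∧ p % 3 = 2 ∧ ¬ IsSquare ((s : ℤ) : ZMod p) := by
  have hs0 : s ≠ 0 := by
    rintro rfl
    exact hs IsSquare.zero
  obtain ⟨a, b, hab, ha⟩ := Nat.sq_mul_squarefree s.natAbs
  have hb0 : b ≠ 0 := by
    rintro rfl
    simp at hab
    exact hs0 (Int.natAbs_eq_zero.mp hab.symm)
  obtain ⟨s', hs1, hs2⟩ : ∃ s' : ℤ, s = s' * b ^ 2 ∧ s'.natAbs = a := by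
    rcases Int.natAbs_eq s with h | h
    · refine ⟨a, ?_, by simp⟩
      rw [h, ← hab]; push_cast; ring
    · refine ⟨-a, ?_, by simp⟩
      rw [h, ← hab]; push_cast; ring
  have hs3 : s' ≠ 1 := by
    rintro rfl
    apply hs
    rw [hs1]
    exact ⟨b, by ring⟩
  obtain ⟨r, hr2, hr3, hra, hrJ⟩ := exists_residue ha hs2 hs3
  have ha0 : a ≠ 0 := ha.ne_zero
  have hcop : Nat.Coprime r (12 * a) := by
    refine Nat.Coprime.mul_right ?_ hra
    have h1 : Nat.Coprime r 4 := by
      have : Nat.Coprime r 2 := by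
        rw [Nat.coprime_comm, Nat.prime_two.coprime_iff_not_dvd]
        omega
      exact Nat.Coprime.pow_right 2 this
    have h2 : Nat.Coprime r 3 := by
      rw [Nat.coprime_comm, Nat.prime_three.coprime_iff_not_dvd]
      omega
    exact Nat.Coprime.mul_right h1 h2
  obtain ⟨p, hpM, hp, hpr⟩ := Nat.forall_exists_prime_gt_and_modEq (max M b) (q := 12 * a)
    (a := r) (by omega) hcop
  have : Fact p.Prime := ⟨hp⟩
  have hp3 : p % 3 = 2 := by
    have : Nat.ModEq 3 p r := hpr.of_dvd ⟨4 * a, by ring⟩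
    rw [← hr3]
    exact this
  have hpodd : Odd p := by
    rw [Nat.odd_iff]
    have : Nat.ModEq 2 p r := hpr.of_dvd ⟨6 * a, by ring⟩
    rw [← hr2]
    exact this
  refine ⟨p, lt_of_le_of_lt (le_max_left _ _) hpM, hp, hp3, ?_⟩
  have h1 : jacobiSym s' p = -1 := by
    rw [jacobiSym.mod_right s' hpodd, hs2, ← hrJ,
      jacobiSym.mod_right s' (b := r) (by rw [Nat.odd_iff]; exact hr2), hs2]
    have : Nat.ModEq (4 * a) p r := hpr.of_dvd ⟨3, by ring⟩
    rw [this]
  rw [← jacobiSym.legendreSym.to_jacobiSym, legendreSym.eq_neg_one_iff] at h1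
  intro h2
  apply h1
  have hb1 : (b : ZMod p) ≠ 0 := by
    rw [Ne, ZMod.natCast_eq_zero_iff]
    intro h3
    have := Nat.le_of_dvd (by omega) h3
    have := le_max_right M b
    omega
  obtain ⟨z, hz⟩ := h2
  refine ⟨z / b, ?_⟩
  rw [hs1] at hz
  push_cast at hz
  field_simp
  rw [hz]
  ring

end Pool.Agent.OddDyn
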