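import Mathlib
import Pool.Agent.OddDyn.Count
import Pool.Agent.OddDyn.Nonres

set_option autoImplicit false

/-!
Cubic polynomials without rational critical points.
-/

namespace Pool.Agent.OddDyn

open Polynomial

/-- a rational number is a unit at all large primes -/
theorem exists_bound_unit {q : ℚ} (hq : q ≠ 0) :
    ∃ M : ℕ, ∀ p : ℕ, M < p → p.Prime → padicNorm p q = 1 := by
  refine ⟨max q.num.natAbs q.den, ?_⟩
  intro p hM hp
  have : Fact p.Prime := ⟨hp⟩
  have h1 : padicNorm p (q.num : ℚ) = 1 := by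
    rw [padicNorm.int_eq_one_iff]
    intro h
    have h2 := Int.natAbs_dvd_natAbs.mpr h
    have h3 := Nat.le_of_dvd (Int.natAbs_pos.mpr (Rat.num_ne_zero.mpr hq)) h2
    simp only [Int.natAbs_natCast] at h3
    have := le_max_left q.num.natAbs q.den
    omega
  have h2 : padicNorm p (q.den : ℚ) = 1 := by
    rw [padicNorm.nat_eq_one_iff]
    intro h
    have h3 := Nat.le_of_dvd q.den_pos h
    have := le_max_right q.num.natAbs q.den
    omega
  rw [← Rat.num_div_den q, padicNorm.div, h1, h2, div_one]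

theorem exists_bound_le (q : ℚ) :
    ∃ M : ℕ, ∀ p : ℕ, M < p → p.Prime → padicNorm p q ≤ 1 := by
  by_cases hq : q = 0
  · refine ⟨0, fun p _ hp => ?_⟩
    have : Fact p.Prime := ⟨hp⟩
    rw [hq, padicNorm.zero]
    norm_num
  · obtain ⟨M, hM⟩ := exists_bound_unit hq
    exact ⟨M, fun p h1 h2 => (hM p h1 h2).le⟩

/-- distance from squares -/
theorem one_le_sq_sub {p : ℕ} (hp : p.Prime) {s : ℤ} (hs : ¬ IsSquare ((s : ℤ) : ZMod p)) (y : ℚ) :
    1 ≤ padicNorm p (y ^ 2 - s) := by
  have : Fact p.Prime := ⟨hp⟩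
  by_contra hlt
  push Not at hlt
  apply hs
  -- multiply by the square of the denominator
  have hden : (y.den : ℚ) ≠ 0 := by exact_mod_cast y.den_ne_zero
  have hy1 : padicNorm p y ≤ 1 := by
    by_contra h
    push Not at h
    have h1 : padicNorm p (y ^ 2) = padicNorm p y ^ 2 := padicNorm_pow _ _
    have h2 : padicNorm p (s : ℚ) ≤ 1 := padicNorm.of_int s
    have h3 : (1 : ℚ) < padicNorm p (y ^ 2) := by rw [h1]; exact one_lt_pow₀ h (by norm_num)
    have h4 : padicNorm p (y ^ 2) ≤ max (padicNorm p (y ^ 2 - s)) (padicNorm p (s : ℚ)) := by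
      have := padicNorm.nonarchimedean (p := p) (q := y ^ 2 - s) (r := s)
      simpa using this
    rcases le_max_iff.mp h4 with h5 | h5
    · linarith
    · linarith
  have hpd : ¬ p ∣ y.den := by
    intro h
    have h1 : padicNorm p (y.den : ℚ) < 1 := (padicNorm.nat_lt_one_iff y.den).mpr h
    have h2 : ¬ (p : ℤ) ∣ y.num := by
      intro h3
      have h4 : p ∣ Nat.gcd y.num.natAbs y.den :=
        Nat.dvd_gcd (Int.natCast_dvd.mp h3) h
      rw [y.reduced.gcd_eq_one] at h4
      exact hp.one_lt.ne' (Nat.dvd_one.mp h4)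
    have h3 : padicNorm p (y.num : ℚ) = 1 := (padicNorm.int_eq_one_iff y.num).mpr h2
    have h4 : padicNorm p (y.num : ℚ) = padicNorm p y * padicNorm p (y.den : ℚ) := by
      rw [← padicNorm.mul, Rat.mul_den_eq_num]
    rw [h3] at h4
    have h5 : padicNorm p y * padicNorm p (y.den : ℚ) < 1 := by
      calc padicNorm p y * padicNorm p (y.den : ℚ) ≤ 1 * padicNorm p (y.den : ℚ) := by
            gcongr
            exact padicNorm.nonneg _
        _ < 1 := by rw [one_mul]; exact h1
    linarith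
  have h1 : padicNorm p ((y.num ^ 2 - s * y.den ^ 2 : ℤ) : ℚ) < 1 := by
    have h2 : ((y.num ^ 2 - s * y.den ^ 2 : ℤ) : ℚ) = (y ^ 2 - s) * y.den ^ 2 := by
      push_cast
      rw [← Rat.mul_den_eq_num y]
      ring
    rw [h2, padicNorm.mul, padicNorm_pow, (padicNorm.nat_eq_one_iff y.den).mpr hpd]
    simpa using hlt
  rw [padicNorm.int_lt_one_iff, ← ZMod.intCast_zmod_eq_zero_iff_dvd] at h1
  push_cast at h1
  have hd0 : (y.den : ZMod p) ≠ 0 := by
    rwa [Ne, ZMod.natCast_eq_zero_iff]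
  refine ⟨(y.num : ZMod p) / y.den, ?_⟩
  field_simp
  linear_combination -h1

/-- a prime for which the derivative does not vanish `p`-adically -/
theorem exists_prime_quadratic {A B C : ℚ} (hA : A ≠ 0)
    (hroot : ∀ x : ℚ, A * x ^ 2 + B * x + C ≠ 0) (M : ℕ) :
    ∃ p : ℕ, M < p ∧ p.Prime ∧ p % 3 = 2 ∧
      ∀ x : ℚ, 1 ≤ padicNorm p (A * x ^ 2 + B * x + C) := by
  set D : ℚ := B ^ 2 - 4 * A * C with hD
  have hDsq : ∀ z : ℚ, z ^ 2 ≠ D := by
    intro z hz
    apply hroot ((-B + z) / (2 * A))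
    field_simp
    rw [hD] at hz
    linear_combination hz
  set s : ℤ := D.num * D.den with hs
  have hden : (D.den : ℚ) ≠ 0 := by exact_mod_cast D.den_ne_zero
  have hsD : (s : ℚ) = D * D.den ^ 2 := by
    rw [hs]
    push_cast
    rw [← Rat.mul_den_eq_num D]
    ring
  have hsns : ¬ IsSquare s := by
    rintro ⟨r, hr⟩
    apply hDsq ((r : ℚ) / D.den)
    have h1 : (s : ℚ) = r * r := by exact_mod_cast hr
    rw [div_pow, div_eq_iff (pow_ne_zero 2 hden), ← hsD, h1]
    ring
  obtain ⟨M1, hM1⟩ := exists_bound_unit (q := 4 * A) (by positivity)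
  obtain ⟨M2, hM2⟩ := exists_bound_unit hden
  obtain ⟨p, hpM, hp, hp3, hns⟩ := exists_prime_nonresidue hsns (max M (max M1 M2))
  have : Fact p.Prime := ⟨hp⟩
  have hpM' := max_lt_iff.mp hpM
  have hpM'' := max_lt_iff.mp hpM'.2
  refine ⟨p, hpM'.1, hp, hp3, ?_⟩
  intro x
  have h1 := one_le_sq_sub hp hns ((2 * A * x + B) * D.den)
  have h2 : ((2 * A * x + B) * D.den) ^ 2 - s =
      (4 * A) * (D.den) ^ 2 * (A * x ^ 2 + B * x + C) := by
    rw [hsD, hD]
    ring
  rw [h2, padicNorm.mul, padicNorm.mul, padicNorm_pow, hM1 p hpM''.1 hp, hM2 p hpM''.2 hp] at h1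
  simpa using h1

theorem padicNorm_prod {p : ℕ} [hp : Fact p.Prime] (g : ℕ → ℚ) (n : ℕ)
    (h : ∀ j, 1 ≤ padicNorm p (g j)) : 1 ≤ padicNorm p (∏ j ∈ Finset.range n, g j) := by
  induction n with
  | zero => simp
  | succ n ih =>
    rw [Finset.prod_range_succ, padicNorm.mul]
    exact one_le_mul_of_one_le_of_one_le ih (h n)

theorem cubic_bound {g : ℚ[X]} (hg : g.natDegree = 3)
    (hcrit : ∀ x : ℚ, (derivative g).eval x ≠ 0) :
    ∃ N : ℕ, ∀ c : ℚ, ∀ T : Finset ℚ,
      (∀ x ∈ T, {y : ℚ | ∃ k : ℕ, (fun y => g.eval y + c)^[k] x = y}.Finite) → T.card ≤ N := by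
  set A : ℚ := 3 * g.coeff 3 with hA
  set B : ℚ := 2 * g.coeff 2 with hB
  set C' : ℚ := g.coeff 1 with hC'
  have hlead : g.leadingCoeff = g.coeff 3 := by rw [leadingCoeff, hg]
  have h30 : g.coeff 3 ≠ 0 := by
    rw [← hlead, Ne, leadingCoeff_eq_zero]
    rintro rfl
    simp at hg
  have hder : ∀ x : ℚ, (derivative g).eval x = A * x ^ 2 + B * x + C' := by
    intro x
    have h1 : (derivative g).natDegree < 3 := by
      have := natDegree_derivative_lt (p := g) (by omega)
      omega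
    rw [eval_eq_sum_range' h1]
    simp only [Finset.sum_range_succ, Finset.sum_range_zero, coeff_derivative]
    push_cast
    rw [hA, hB, hC']
    ring
  obtain ⟨M1, hM1⟩ := exists_bound_unit h30
  obtain ⟨M2, hM2⟩ := exists_bound_le (g.coeff 2)
  obtain ⟨M3, hM3⟩ := exists_bound_le (g.coeff 1)
  obtain ⟨p, hpM, hp, hp3, hpd⟩ := exists_prime_quadratic (A := A) (B := B) (C := C')
    (by rw [hA]; exact mul_ne_zero (by norm_num) h30)
    (by intro x; rw [← hder]; exact hcrit x) (max 3 (max M1 (max M2 M3)))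
  have hf : Fact p.Prime := ⟨hp⟩
  have h1 := max_lt_iff.mp hpM
  have h2 := max_lt_iff.mp h1.2
  have h3 := max_lt_iff.mp h2.2
  refine ⟨3 ^ (expo p * (0 + 1) + expo p), ?_⟩
  intro c T hT
  have hfe : ∀ y : ℚ, (g + C c).eval y = g.eval y + c := by
    intro y
    simp
  have hdeg : (g + C c).natDegree = 3 := by rw [natDegree_add_C, hg]
  have hcoeff : ∀ i, 1 ≤ i → ((g + C c).comp (X + C 0)).coeff i = g.coeff i := by
    intro i hi
    rw [C_0, add_zero, comp_X, coeff_add, coeff_C, if_neg (by omega), add_zero]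
  have hlc : (g + C c).leadingCoeff = g.coeff 3 := by
    rw [leadingCoeff, hdeg, coeff_add, coeff_C, if_neg (by norm_num), add_zero]
  refine card_preper (p := p) (f := g + C c) (d := 3) (by norm_num) hdeg ?_ (t := 0) ?_
    (w := 0) T ?_ ?_
  · refine Nat.Coprime.mul_right ?_ ?_
    · rw [Nat.prime_three.coprime_iff_not_dvd]
      omega
    · rw [Nat.prime_three.coprime_iff_not_dvd]
      omega
  · intro i hi1 hi2
    rw [hcoeff i hi1, hlc, hM1 p h2.1 hp, one_pow]
    have h4 : i = 1 ∨ i = 2 := by omega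
    rcases h4 with rfl | rfl
    · exact pow_le_one₀ (padicNorm.nonneg _) (hM3 p h3.2 hp)
    · exact pow_le_one₀ (padicNorm.nonneg _) (hM2 p h3.1 hp)
  · intro x _ α _ _
    simp only [Nat.cast_zero, neg_zero, zpow_zero]
    refine padicNorm_prod _ _ ?_
    intro j
    have h4 : derivative (g + C c) = derivative g := by simp
    rw [h4, hder]
    exact hpd _
  · intro x hx
    have := hT x hx
    simp only [hfe]
    exact this

end Pool.Agent.OddDyn
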