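import Mathlib
import Pool.Agent.OddDyn.Rat

set_option autoImplicit false

/-!
# A uniform bound for rational periodic points with arbitrary constant term

Let `d ≥ 2` and let `p` be a prime with `gcd(d, p(p-1)) = 1` (so `d` is odd, and for odd `d` the
prime `p = 2` always qualifies).  For a polynomial `f` over `ℚ` of degree `d` we expand `f` around
a rational centre `t`, `f(x + t) = ∑ a_i x ^ i`, and assume `|a_i|_p ^ (d-1) ≤ |a_d|_p ^ (i-1)` for
`1 ≤ i < d`.  Nothing is assumed about the constant term `a_0`.  Then every rational periodic point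
of `f` has period dividing `p! * (p - 1) * p` (this is `4` for `p = 2`), so there are at most
`d ^ (p! * (p - 1) * p)` of them.
-/

namespace Pool.Agent.Results.MP_c076ed_nt.PeriodicLocal

open Polynomial

/-- `x` is a periodic point of `f`. -/
def IsPeriodicPoint (f : ℚ[X]) (x : ℚ) : Prop :=
  ∃ n : ℕ, 0 < n ∧ (fun y => f.eval y)^[n] x = x

/-- The coefficient condition at the prime `p` with centre `t`; `f.comp (X + C t)` is the
polynomial `f(x + t)`. There is no condition on the constant term (`i = 0`). -/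
def CoeffCondition (p : ℕ) (f : ℚ[X]) (t : ℚ) : Prop :=
  ∀ i : ℕ, 1 ≤ i → i < f.natDegree →
    padicNorm p ((f.comp (X + C t)).coeff i) ^ (f.natDegree - 1) ≤
      padicNorm p f.leadingCoeff ^ (i - 1)

theorem result (p : ℕ) (hp : p.Prime) (f : ℚ[X]) (hd : 2 ≤ f.natDegree)
    (hcop : Nat.Coprime f.natDegree (p * (p - 1))) (t : ℚ) (hf : CoeffCondition p f t) :
    (∀ x : ℚ, IsPeriodicPoint f x →
      (fun y => f.eval y)^[p.factorial * ((p - 1) * p)] x = x) ∧
    ∀ T : Finset ℚ, (∀ x ∈ T, IsPeriodicPoint f x) →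
      T.card ≤ f.natDegree ^ (p.factorial * ((p - 1) * p)) := by
  have : Fact p.Prime := ⟨hp⟩
  have h1 : ∀ x : ℚ, IsPeriodicPoint f x →
      (fun y => f.eval y)^[p.factorial * ((p - 1) * p)] x = x := by
    rintro x ⟨n, hn, hx⟩
    exact OddDyn.periodic_rat hd rfl hcop hf hn hx
  refine ⟨h1, ?_⟩
  intro T hT
  refine OddDyn.card_le_of_iterate_eq rfl hd (m := 0) ?_ T ?_
  · exact lt_of_lt_of_le hp.pos (OddDyn.le_expo hp)
  · intro x hx
    exact h1 x (hT x hx)

end Pool.Agent.Results.MP_c076ed_nt.PeriodicLocal
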