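import Mathlib
import Pool.Agent.OddDyn.Count

set_option autoImplicit false

/-!
# A uniform bound for rational preperiodic points with arbitrary constant term

Let `p` be a prime and let `f` be a polynomial over `ℚ` of degree `d ≥ 2` with
`gcd(d, p(p-1)) = 1` (so `d` is odd; `p = 2` qualifies for every odd `d`), and assume that the
coefficients `a_i` of `f(x + t)` satisfy `|a_i|_p ^ (d-1) ≤ |a_d|_p ^ (i-1)` for `1 ≤ i < d`
(no condition on `a_0`).  Then, for every `w`, the number of rational preperiodic points of `f`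
whose orbit ends in a cycle with multiplier `λ ≠ 0`, `v_p(λ) ≤ w`, is at most
`d ^ (N * (N * w + 2))`, where `N = p! * (p - 1) * p`.
-/

namespace Pool.Agent.Results.MP_c076ed_nt.PreperiodicLocal

open Polynomial

/-- `x` is preperiodic for `f`: its forward orbit is finite. -/
def IsPreperiodicPoint (f : ℚ[X]) (x : ℚ) : Prop :=
  {y : ℚ | ∃ k : ℕ, (fun y => f.eval y)^[k] x = y}.Finite

/-- `x` lies on a cycle of `f` of exact length `n`. -/
def IsCyclePoint (f : ℚ[X]) (n : ℕ) (x : ℚ) : Prop :=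
  0 < n ∧ (fun y => f.eval y)^[n] x = x ∧ ∀ k, 0 < k → k < n → (fun y => f.eval y)^[k] x ≠ x

/-- the multiplier `f'(x) f'(f(x)) ⋯` of a cycle of length `n` through `x` -/
noncomputable def multiplier (f : ℚ[X]) (n : ℕ) (x : ℚ) : ℚ :=
  ∏ j ∈ Finset.range n, (derivative f).eval ((fun y => f.eval y)^[j] x)

/-- The coefficient condition at the prime `p` with centre `t`; `f.comp (X + C t)` is the
polynomial `f(x + t)`. There is no condition on the constant term (`i = 0`). -/
def CoeffCondition (p : ℕ) (f : ℚ[X]) (t : ℚ) : Prop :=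
  ∀ i : ℕ, 1 ≤ i → i < f.natDegree →
    padicNorm p ((f.comp (X + C t)).coeff i) ^ (f.natDegree - 1) ≤
      padicNorm p f.leadingCoeff ^ (i - 1)

/-- The cycle reached by `x` has a multiplier `λ` with `|λ|_p ≥ p ^ (-w)`. -/
def MultiplierBound (p : ℕ) (f : ℚ[X]) (w : ℕ) (x : ℚ) : Prop :=
  ∀ k n : ℕ, IsCyclePoint f n ((fun y => f.eval y)^[k] x) →
    ((p : ℚ) ^ w)⁻¹ ≤ padicNorm p (multiplier f n ((fun y => f.eval y)^[k] x))

theorem result (p : ℕ) (hp : p.Prime) (f : ℚ[X]) (hd : 2 ≤ f.natDegree)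
    (hcop : Nat.Coprime f.natDegree (p * (p - 1))) (t : ℚ) (hf : CoeffCondition p f t) (w : ℕ)
    (T : Finset ℚ) (hT : ∀ x ∈ T, IsPreperiodicPoint f x ∧ MultiplierBound p f w x) :
    T.card ≤ f.natDegree ^ (p.factorial * ((p - 1) * p) *
      (p.factorial * ((p - 1) * p) * w + 2)) := by
  have : Fact p.Prime := ⟨hp⟩
  have hNpos : 0 < OddDyn.expo p := lt_of_lt_of_le hp.pos (OddDyn.le_expo hp)
  have hp1 : (1 : ℚ) ≤ p := by exact_mod_cast hp.one_lt.le
  have h1 := OddDyn.card_preper (p := p) hd rfl hcop hf (w := OddDyn.expo p * w) T (by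
    rintro x hx α ⟨k, rfl⟩ hα
    set α := (fun y => f.eval y)^[k] x with hαdef
    -- exact period
    have hex : ∃ n, 0 < n ∧ (fun y => f.eval y)^[n] α = α := ⟨_, hNpos, hα⟩
    classical
    obtain ⟨hn0, hn1⟩ := Nat.find_spec hex
    set n := Nat.find hex with hn
    have hcyc : IsCyclePoint f n α :=
      ⟨hn0, hn1, fun k hk hkn hk2 => Nat.find_min hex hkn ⟨hk, hk2⟩⟩
    have hdvd : n ∣ OddDyn.expo p := by
      by_contra hnd
      have hmod : 0 < OddDyn.expo p % n := Nat.pos_of_ne_zero (fun h => hnd (Nat.dvd_of_mod_eq_zero h))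
      apply hcyc.2.2 _ hmod (Nat.mod_lt _ hn0)
      have h2 := hα
      rw [← Nat.mod_add_div (OddDyn.expo p) n, Function.iterate_add_apply,
        Function.iterate_mul] at h2
      rwa [Function.iterate_fixed hn1] at h2
    obtain ⟨q, hq⟩ := hdvd
    have hqle : q ≤ OddDyn.expo p := by
      rw [hq]
      exact Nat.le_mul_of_pos_left _ hn0
    rw [hq, OddDyn.prod_cycle hn1 (fun z => (derivative f).eval z) q, ← hq]
    have h3 := (hT x hx).2 k n hcyc
    change _ ≤ padicNorm p ((multiplier f n α) ^ q)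
    rw [OddDyn.padicNorm_pow]
    have h5 : (((p : ℚ) ^ w)⁻¹) ^ q ≤ padicNorm p (multiplier f n α) ^ q :=
      pow_le_pow_left₀ (by positivity) h3 q
    refine le_trans ?_ h5
    rw [zpow_neg, zpow_natCast, inv_pow, ← pow_mul]
    refine inv_anti₀ (by positivity) ?_
    refine pow_le_pow_right₀ hp1 ?_
    rw [mul_comm]
    exact Nat.mul_le_mul_right _ hqle) (fun x hx => (hT x hx).1)
  refine h1.trans (le_of_eq ?_)
  congr 1

end Pool.Agent.Results.MP_c076ed_nt.PreperiodicLocal
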